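import Mathlib

/-! Packed lanes: vectors of naturals stored in one natural number. -/

namespace Pool.Agent.Lib.VC2.TB

open Finset

/-- the number whose lanes of width `w` hold `f 0, …, f (n-1)` -/
def pk (w n : ℕ) (f : ℕ → ℕ) : ℕ := ∑ i ∈ range n, f i * 2 ^ (w * i)

/-- lanes `a, …, a+m-1` -/
def slice (w v a m : ℕ) : ℕ := Nat.mod (Nat.shiftRight v (Nat.mul w a)) (Nat.pow 2 (Nat.mul w m))

/-- lane `i` -/
def lane (w v i : ℕ) : ℕ := Nat.mod (Nat.shiftRight v (Nat.mul w i)) (Nat.pow 2 w)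

/-- all lanes equal to one -/
def comb (w n : ℕ) : ℕ := Nat.div (Nat.pow 2 (Nat.mul w n) - 1) (Nat.pow 2 w - 1)

/-- call by value -/
def force {α : Type} (n : ℕ) (k : ℕ → α) : α := Nat.rec (k 0) (fun m _ => k m.succ) n

@[simp] theorem force_eq {α : Type} (n : ℕ) (k : ℕ → α) : force n k = k n := by
  cases n <;> rfl

/-- executable form of `pk` (Horner, highest lane first) -/
def pkE (w n : ℕ) (f : ℕ → ℕ) : ℕ :=
  Nat.rec (motive := fun _ => ℕ → ℕ) (fun acc => acc)
    (fun i ih acc => force (Nat.add (Nat.shiftLeft acc w) (f i)) ih) n 0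

theorem slice_eq (w v a m : ℕ) : slice w v a m = v / 2 ^ (w * a) % 2 ^ (w * m) := by
  rw [← Nat.shiftRight_eq_div_pow]; rfl

theorem lane_eq (w v i : ℕ) : lane w v i = v / 2 ^ (w * i) % 2 ^ w := by
  rw [← Nat.shiftRight_eq_div_pow]; rfl

theorem lane_lt (w v i : ℕ) : lane w v i < 2 ^ w := by
  rw [lane_eq]; exact Nat.mod_lt _ (by positivity)

theorem pk_zero (w : ℕ) (f : ℕ → ℕ) : pk w 0 f = 0 := by simp [pk]

theorem pk_succ (w n : ℕ) (f : ℕ → ℕ) : pk w (n + 1) f = pk w n f + f n * 2 ^ (w * n) :=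
  sum_range_succ _ _

theorem pk_congr {w n : ℕ} {f g : ℕ → ℕ} (h : ∀ i < n, f i = g i) : pk w n f = pk w n g :=
  sum_congr rfl fun i hi => by rw [h i (mem_range.1 hi)]

theorem pk_split (w a m : ℕ) (f : ℕ → ℕ) :
    pk w (a + m) f = pk w a f + 2 ^ (w * a) * pk w m fun i => f (a + i) := by
  simp only [pk, sum_range_add, mul_sum]
  congr 1
  refine sum_congr rfl fun i _ => ?_
  rw [mul_add, pow_add]; ring

theorem pk_add (w n : ℕ) (f g : ℕ → ℕ) : pk w n f + pk w n g = pk w n fun i => f i + g i := by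
  simp only [pk, ← sum_add_distrib, add_mul]

theorem mul_pk (w n c : ℕ) (f : ℕ → ℕ) : c * pk w n f = pk w n fun i => c * f i := by
  simp only [pk, mul_sum, mul_assoc]

theorem pk_sub {w n : ℕ} {f g : ℕ → ℕ} (h : ∀ i < n, g i ≤ f i) :
    pk w n f - pk w n g = pk w n fun i => f i - g i := by
  have : pk w n f = (pk w n fun i => f i - g i) + pk w n g := by
    rw [pk_add]; exact pk_congr fun i hi => by have := h i hi; omega
  omega

theorem pk_lt {w n : ℕ} {f : ℕ → ℕ} (h : ∀ i < n, f i < 2 ^ w) : pk w n f < 2 ^ (w * n) := by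
  induction n with
  | zero => simp [pk]
  | succ n ih =>
    have h1 := ih fun i hi => h i (by omega)
    have h2 := h n (by omega)
    rw [pk_succ, mul_add, pow_add, mul_one]
    have : (f n + 1) * 2 ^ (w * n) ≤ 2 ^ w * 2 ^ (w * n) := Nat.mul_le_mul_right _ h2
    nlinarith

theorem slice_pk {w n a m : ℕ} {f : ℕ → ℕ} (h : ∀ i < n, f i < 2 ^ w) (ha : a + m ≤ n) :
    slice w (pk w n f) a m = pk w m fun i => f (a + i) := by
  obtain ⟨r, rfl⟩ := Nat.exists_eq_add_of_le ha
  have h1 : pk w a f < 2 ^ (w * a) := pk_lt fun i hi => h i (by omega)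
  have h2 : (pk w m fun i => f (a + i)) < 2 ^ (w * m) := pk_lt fun i hi => h _ (by omega)
  rw [slice_eq, add_assoc, pk_split, Nat.add_mul_div_left _ _ (by positivity),
    Nat.div_eq_of_lt h1, zero_add, pk_split, Nat.add_mul_mod_self_left, Nat.mod_eq_of_lt h2]

theorem lane_pk {w n i : ℕ} {f : ℕ → ℕ} (h : ∀ i < n, f i < 2 ^ w) (hi : i < n) :
    lane w (pk w n f) i = f i := by
  have := slice_pk (a := i) (m := 1) h hi
  simpa [slice_eq, lane_eq, pk] using this

theorem pk_lane (w n v : ℕ) : pk w n (lane w v) = v % 2 ^ (w * n) := by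
  induction n with
  | zero => simp [pk, Nat.mod_one]
  | succ n ih => rw [pk_succ, ih, mul_add, pow_add, mul_one, Nat.mod_mul, lane_eq]; ring

theorem slice_eq_pk (w v a m : ℕ) : slice w v a m = pk w m fun i => lane w v (a + i) := by
  rw [slice_eq, ← pk_lane]
  refine pk_congr fun i _ => ?_
  rw [lane_eq, lane_eq, Nat.div_div_eq_div_mul, ← pow_add, mul_add]

theorem comb_eq {w : ℕ} (hw : 0 < w) (n : ℕ) : comb w n = pk w n fun _ => 1 := by
  have h1 : 2 ≤ 2 ^ w := by
    calc 2 = 2 ^ 1 := rfl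
      _ ≤ 2 ^ w := Nat.pow_le_pow_right (by norm_num) hw
  have := Nat.geomSum_eq h1 n
  simp only [comb, pk, one_mul, pow_mul, this, Nat.mul_eq, Nat.pow_eq]
  rfl

theorem pkE_eq (w n : ℕ) (f : ℕ → ℕ) : pkE w n f = pk w n f := by
  have : ∀ acc, Nat.rec (motive := fun _ => ℕ → ℕ) (fun acc => acc)
      (fun i ih acc => force (Nat.add (Nat.shiftLeft acc w) (f i)) ih) n acc =
      pk w n f + acc * 2 ^ (w * n) := by
    induction n with
    | zero => simp [pk]
    | succ n ih =>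
      intro acc
      simp only [force_eq] at ih ⊢
      rw [ih, pk_succ]
      simp only [Nat.add_eq, Nat.shiftLeft_eq', Nat.shiftLeft_eq]
      rw [mul_add w, pow_add]; ring
  simpa [pkE] using this 0

/-- copies of a short vector placed with stride `s` -/
theorem pk_tile {w L s : ℕ} (hL : L ≤ s) (n : ℕ) (f : ℕ → ℕ) :
    pk w L f * pk (w * s) n (fun _ => 1) =
      pk w (s * n) fun q => if q % s < L then f (q % s) else 0 := by
  induction n with
  | zero => simp [pk]
  | succ n ih =>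
    rw [pk_succ, mul_add, ih, mul_add s, mul_one, pk_split, one_mul, mul_assoc, mul_comm (pk _ _ _)]
    congr 2
    obtain ⟨r, rfl⟩ := Nat.exists_eq_add_of_le hL
    rw [pk_split]
    have h0 : (pk w r fun i => if ((L + r) * n + (L + i)) % (L + r) < L then
        f (((L + r) * n + (L + i)) % (L + r)) else 0) = pk w r fun _ => 0 :=
      pk_congr fun i hi => by
        rw [Nat.mul_add_mod, Nat.mod_eq_of_lt (by omega), if_neg (by omega)]
    rw [h0]
    simp only [pk, zero_mul, sum_const_zero, mul_zero, add_zero]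
    refine sum_congr rfl fun i hi => ?_
    have := mem_range.1 hi
    rw [Nat.mul_add_mod, Nat.mod_eq_of_lt (by omega), if_pos this]

/-- a vector with wide lanes of `m` narrow lanes, each entry repeated `m` times -/
theorem pk_spread (w m n : ℕ) (f : ℕ → ℕ) :
    pk (w * m) n f * pk w m (fun _ => 1) = pk w (m * n) fun q => f (q / m) := by
  induction n with
  | zero => simp [pk]
  | succ n ih =>
    rw [pk_succ, add_mul, ih, mul_add m, mul_one, pk_split, mul_assoc, mul_comm (f n),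
      mul_assoc, mul_assoc, mul_comm _ (f n), mul_pk]
    congr 2
    refine pk_congr fun i hi => ?_
    rw [mul_one, Nat.mul_add_div (by omega), Nat.div_eq_of_lt hi, add_zero]

theorem lane_land (w u v i : ℕ) : lane w (Nat.land u v) i = lane w u i &&& lane w v i := by
  simp only [lane_eq, Nat.land_eq, ← Nat.shiftRight_eq_div_pow, Nat.shiftRight_and_distrib,
    Nat.and_mod_two_pow]

theorem pk_land {w n : ℕ} {f g : ℕ → ℕ} (hf : ∀ i < n, f i < 2 ^ w) (hg : ∀ i < n, g i < 2 ^ w) :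
    Nat.land (pk w n f) (pk w n g) = pk w n fun i => f i &&& g i := by
  have h : Nat.land (pk w n f) (pk w n g) < 2 ^ (w * n) :=
    lt_of_le_of_lt Nat.and_le_left (pk_lt hf)
  rw [← Nat.mod_eq_of_lt h, ← pk_lane]
  exact pk_congr fun i hi => by rw [lane_land, lane_pk hf hi, lane_pk hg hi]

theorem and_top {u x : ℕ} (hx : x < 2 ^ (u + 1)) :
    x &&& 2 ^ u = if 2 ^ u ≤ x then 2 ^ u else 0 := by
  rw [Nat.and_two_pow]
  split_ifs with h
  · rw [Nat.testBit_of_two_pow_le_and_two_pow_add_one_gt h hx]; simp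
  · rw [Nat.testBit_lt_two_pow (by omega)]; simp

/-- one `land` tests the top bit of all selected lanes -/
theorem lane_lt_of_land {u v m i : ℕ} (h : Nat.land v m = 0)
    (hm : lane (u + 1) m i = 2 ^ u) : lane (u + 1) v i < 2 ^ u := by
  have h1 := lane_land (u + 1) v m i
  rw [h, hm, and_top (lane_lt _ _ _)] at h1
  by_contra hc
  rw [if_pos (by omega)] at h1
  simp [lane_eq] at h1
  exact absurd h1.symm (by positivity)

/-- lanewise maximum of two vectors with entries below `2^u`; `H` has the top bit of each lane -/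
def pmax (u H x y : ℕ) : ℕ :=
  force (Nat.sub (Nat.add x H) y) fun d => force (Nat.land d H) fun t =>
    Nat.add y (Nat.land d (Nat.sub t (Nat.shiftRight t u)))

theorem pmax_pk {u n : ℕ} {f g : ℕ → ℕ} (hf : ∀ i < n, f i < 2 ^ u) (hg : ∀ i < n, g i < 2 ^ u) :
    pmax u (pk (u + 1) n fun _ => 2 ^ u) (pk (u + 1) n f) (pk (u + 1) n g) =
      pk (u + 1) n fun i => max (f i) (g i) := by
  have p2 : 2 ^ (u + 1) = 2 * 2 ^ u := by ring
  have p0 : 0 < 2 ^ u := by positivity
  simp only [pmax, force_eq, Nat.add_eq, Nat.sub_eq]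
  rw [pk_add, pk_sub fun i hi => by have := hg i hi; omega]
  have b1 : ∀ i < n, f i + 2 ^ u - g i < 2 ^ (u + 1) := fun i hi => by have := hf i hi; omega
  rw [pk_land b1 fun i _ => by omega]
  have e1 : (pk (u + 1) n fun i => (f i + 2 ^ u - g i) &&& 2 ^ u) =
      2 ^ u * pk (u + 1) n fun i => if g i ≤ f i then 1 else 0 := by
    rw [mul_pk]
    refine pk_congr fun i hi => ?_
    have := hg i hi
    rw [and_top (b1 i hi)]
    split_ifs <;> omega
  rw [e1, Nat.shiftRight_eq, Nat.shiftRight_eq_div_pow, Nat.mul_div_cancel_left _ p0, mul_pk,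
    pk_sub fun i _ => by split_ifs <;> omega, pk_land b1 fun i _ => by split_ifs <;> omega, pk_add]
  refine pk_congr fun i hi => ?_
  have h1 := hf i hi
  split_ifs with h
  · rw [mul_one, Nat.and_two_pow_sub_one_eq_mod, show f i + 2 ^ u - g i = f i - g i + 2 ^ u by omega,
      Nat.add_mod_right, Nat.mod_eq_of_lt (by omega)]
    omega
  · simp; omega

/-- `v` packs `n` naturals bounded by `B` which dominate the reals `F i` -/
def UB (w n v B : ℕ) (F : ℕ → ℝ) : Prop :=
  ∃ f : ℕ → ℕ, v = pk w n f ∧ ∀ i < n, f i ≤ B ∧ F i ≤ f i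

namespace UB

variable {w n v v' B B' : ℕ} {F F' : ℕ → ℝ}

theorem mono (h : UB w n v B F) (hB : B ≤ B') (hF : ∀ i < n, F' i ≤ F i) : UB w n v B' F' := by
  obtain ⟨f, e, h⟩ := h
  exact ⟨f, e, fun i hi => ⟨(h i hi).1.trans hB, (hF i hi).trans (h i hi).2⟩⟩

theorem add (h : UB w n v B F) (h' : UB w n v' B' F') :
    UB w n (Nat.add v v') (B + B') fun i => F i + F' i := by
  obtain ⟨f, rfl, h⟩ := h
  obtain ⟨g, rfl, h'⟩ := h'
  exact ⟨_, pk_add _ _ _ _, fun i hi => ⟨add_le_add (h i hi).1 (h' i hi).1, by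
    push_cast; exact add_le_add (h i hi).2 (h' i hi).2⟩⟩

theorem smul (c : ℕ) (h : UB w n v B F) : UB w n (Nat.mul c v) (c * B) fun i => c * F i := by
  obtain ⟨f, rfl, h⟩ := h
  exact ⟨_, mul_pk _ _ _ _, fun i hi => ⟨Nat.mul_le_mul_left _ (h i hi).1, by
    push_cast; exact mul_le_mul_of_nonneg_left (h i hi).2 (by positivity)⟩⟩

theorem bcast (hw : 0 < w) (n c : ℕ) : UB w n (Nat.mul c (comb w n)) c fun _ => c :=
  ⟨fun _ => c, by rw [comb_eq hw, Nat.mul_eq, mul_pk]; simp, fun _ _ => ⟨le_rfl, le_rfl⟩⟩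

theorem build {g : ℕ → ℕ} (h : ∀ i < n, g i ≤ B ∧ F i ≤ g i) : UB w n (pkE w n g) B F :=
  ⟨g, pkE_eq _ _ _, h⟩

theorem raw (w v a m : ℕ) : UB w m (slice w v a m) (2 ^ w - 1) fun i => lane w v (a + i) :=
  ⟨_, slice_eq_pk _ _ _ _, fun i _ => ⟨by have := lane_lt w v (a + i); omega, le_rfl⟩⟩

theorem slice {a m : ℕ} (h : UB w n v B F) (hB : B < 2 ^ w) (ha : a + m ≤ n) :
    UB w m (slice w v a m) B fun i => F (a + i) := by
  obtain ⟨f, rfl, h⟩ := h
  exact ⟨_, slice_pk (fun i hi => (h i hi).1.trans_lt hB) ha, fun i hi => h _ (by omega)⟩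

theorem lane {i : ℕ} (h : UB w n v B F) (hB : B < 2 ^ w) (hi : i < n) :
    lane w v i ≤ B ∧ F i ≤ lane w v i := by
  obtain ⟨f, rfl, h⟩ := h
  rw [lane_pk (fun i hi => (h i hi).1.trans_lt hB) hi]; exact h i hi

theorem tile {s : ℕ} (h : UB w n v B F) (hs : n ≤ s) (hw : 0 < w * s) (k : ℕ) :
    UB w (s * k) (Nat.mul v (comb (w * s) k)) B fun q => if q % s < n then F (q % s) else 0 := by
  obtain ⟨f, rfl, h⟩ := h
  refine ⟨_, by rw [comb_eq hw, Nat.mul_eq, pk_tile hs], fun q _ => ?_⟩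
  beta_reduce
  split_ifs with hq
  · exact h _ hq
  · simp

theorem spread {m : ℕ} (h : UB (w * m) n v B F) (hw : 0 < w) :
    UB w (m * n) (Nat.mul v (comb w m)) B fun q => F (q / m) := by
  obtain ⟨f, rfl, h⟩ := h
  exact ⟨_, by rw [comb_eq hw, Nat.mul_eq, pk_spread], fun q hq =>
    h _ (Nat.div_lt_of_lt_mul hq)⟩

theorem concat {m : ℕ} (h : UB w n v B F) (h' : UB w m v' B F') :
    UB w (n + m) (Nat.add v (Nat.shiftLeft v' (Nat.mul w n))) B
      fun i => if i < n then F i else F' (i - n) := by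
  obtain ⟨f, rfl, h⟩ := h
  obtain ⟨g, rfl, h'⟩ := h'
  refine ⟨fun i => if i < n then f i else g (i - n), ?_, fun i hi => ?_⟩
  · rw [pk_split]
    simp only [Nat.add_eq, Nat.mul_eq, Nat.shiftLeft_eq', Nat.shiftLeft_eq]
    rw [mul_comm]
    refine congrArg₂ (· + ·) ?_ (congrArg _ ?_)
    · exact pk_congr fun i hi => by rw [if_pos hi]
    · exact pk_congr fun i hi => by rw [if_neg (by omega), Nat.add_sub_cancel_left]
  · beta_reduce
    split_ifs with h1
    · exact h i h1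
    · exact h' _ (by omega)

theorem max {u : ℕ} (h : UB (u + 1) n v B F) (h' : UB (u + 1) n v' B F') (hB : B < 2 ^ u) :
    UB (u + 1) n (pmax u (Nat.mul (Nat.pow 2 u) (comb (u + 1) n)) v v') B
      fun i => Max.max (F i) (F' i) := by
  obtain ⟨f, rfl, h⟩ := h
  obtain ⟨g, rfl, h'⟩ := h'
  refine ⟨fun i => Max.max (f i) (g i), ?_, fun i hi => ⟨max_le (h i hi).1 (h' i hi).1, ?_⟩⟩
  · rw [← pmax_pk (fun i hi => (h i hi).1.trans_lt hB) fun i hi => (h' i hi).1.trans_lt hB,
      comb_eq (by omega), Nat.mul_eq, mul_pk]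
    simp
  · push_cast; exact max_le_max (h i hi).2 (h' i hi).2

/-- the final test: selected lanes are at most `c` -/
theorem check {u c m : ℕ} (h : UB (u + 1) n v B F) (hc : c < 2 ^ u) (hB : B ≤ 2 ^ u)
    (ht : Nat.land (Nat.add v (Nat.mul (2 ^ u - 1 - c) (comb (u + 1) n))) m = 0) {i : ℕ}
    (hi : i < n) (hm : TB.lane (u + 1) m i = 2 ^ u) : F i ≤ c := by
  obtain ⟨f, rfl, h⟩ := h
  have p2 : 2 ^ (u + 1) = 2 * 2 ^ u := by ring
  have h1 := lane_lt_of_land ht hm
  rw [comb_eq (by omega), Nat.mul_eq, mul_pk, Nat.add_eq, pk_add,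
    lane_pk (fun j hj => by have := (h j hj).1; omega) hi] at h1
  exact (h i hi).2.trans (by exact_mod_cast (by omega : f i ≤ c))

/-- the final test for all lanes -/
theorem check_all {u c : ℕ} (h : UB (u + 1) n v B F) (hc : c < 2 ^ u) (hB : B ≤ 2 ^ u)
    (ht : Nat.land (Nat.add v (Nat.mul (2 ^ u - 1 - c) (comb (u + 1) n)))
      (Nat.mul (2 ^ u) (comb (u + 1) n)) = 0) {i : ℕ} (hi : i < n) : F i ≤ c := by
  refine h.check hc hB ht hi ?_
  have p2 : 2 ^ (u + 1) = 2 * 2 ^ u := by ring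
  have p0 : 0 < 2 ^ u := by positivity
  rw [comb_eq (by omega), Nat.mul_eq, mul_pk, lane_pk (fun j _ => by omega) hi, mul_one]

end UB

end Pool.Agent.Lib.VC2.TB
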