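import Pool.Agent.Lib.VC2.DE2
import Pool.Agent.Lib.VC2.DC2

/-! The direct rows, far states: the checker. -/

namespace Pool.Agent.Lib.VC2.TB.FX

open Pool.Agent.Lib.MP_759431_gt.AB Pool.Agent.Lib.MP_759431_gt.AB.DR

/-- concatenation of vectors which are made with tests -/
noncomputable def vecK (mk : Sg → (ℕ → Bool) → Bool) (l : List Sg) (k : ℕ → Bool) : Bool :=
  List.rec (motive := fun _ => (ℕ → Bool) → Bool) (fun k => k 0) (fun σ _ ih k => ih fun v =>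
    mk σ fun w => fz (Nat.add w (Nat.shiftLeft v (Nat.mul 32 σ.n))) k) l k

/-- a vector with tested lanes -/
noncomputable def vecC (B : ℕ) (g : Sg → ℕ → ℕ) (l : List Sg) (k : ℕ → Bool) : Bool :=
  vecK (fun σ => pkC B (g σ) σ.n) l k

/-- choice between the central family and the others -/
noncomputable def cM (σ : Sg) (a b : ℕ) : ℕ := Bool.rec b a (Nat.beq σ.ms 0)

/-- the gauge point and its increments -/
noncomputable def rb (b : ℕ) (σ : Sg) (t : ℕ) : ℕ :=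
  cM σ (Nat.add 1024 (Nat.mul 4 (Nat.add σ.x4 t))) (lane 32 b (Nat.add σ.po t))

noncomputable def rc (c : ℕ) (σ : Sg) (t : ℕ) : ℕ :=
  cM σ 1024 (Nat.add (lane 32 c (Nat.add σ.po t)) (Nat.mul 44 (Nat.sub 1 σ.mn)))

noncomputable def rd (d : ℕ) (σ : Sg) (t : ℕ) : ℕ :=
  cM σ 4 (Nat.add (lane 32 d (Nat.add σ.po t)) (Nat.mul 4 (Nat.sub (Nat.sub 2 σ.re) σ.mn)))

/-- the vectors of a side -/
structure Sv where
  (C H zp zn re nr ip im mn nm rd cx cy : ℕ)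

noncomputable def sideV (b c d : ℕ) (l : List Sg) (k : Sv → Bool) : Bool :=
  fz (tot l) fun N => fz (comb 32 N) fun C => fz (Nat.mul 2147483648 C) fun H =>
  vecC 512 (fun σ t => Nat.sub (rb b σ t) 768) l fun zp =>
  vecC 512 (fun σ t => Nat.sub 1280 (rb b σ t)) l fun zn =>
  vecC 1 (fun σ _ => σ.re) l fun re => vecC 1 (fun σ _ => Nat.sub 1 σ.re) l fun nr =>
  vecC 288 (fun σ t => Nat.sub (rc c σ t) 896) l fun ip =>
  vecC 256 (fun σ t => Nat.sub 1152 (rc c σ t)) l fun im =>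
  vecC 1 (fun σ _ => σ.mn) l fun mn => vecC 1 (fun σ _ => Nat.sub 1 σ.mn) l fun nm =>
  vecC 264 (rd d) l fun rd =>
  vecC 64 (fun σ t => Nat.add σ.x4 (Nat.mul (Nat.sub 1 σ.vt) t)) l fun cx =>
  vecC 22 (fun σ t => Nat.add σ.y4 (Nat.mul σ.vt t)) l fun cy =>
  k ⟨C, H, zp, zn, re, nr, ip, im, mn, nm, rd, cx, cy⟩

/-- choice by the kind of the mask -/
noncomputable def sl6 (m a b c d e f : ℕ) : ℕ :=
  Bool.rec (Bool.rec (Bool.rec (Bool.rec (Bool.rec f e (Nat.beq m 4)) d (Nat.beq m 3)) c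
    (Nat.beq m 2)) b (Nat.beq m 1)) a (Nat.beq m 0)

/-- the bounds of the masks -/
noncomputable def mlo (P : Bx) (i j m : ℕ) : ℕ :=
  sl6 m (Nat.sub i 8) 0 (Nat.div (Nat.add (mx (Nat.sub (Nat.mul 4 i) 4) P.a0) 44) 4) 0
    (Nat.succ (mn 11 (Nat.div (Nat.add (mn (Nat.add 4 (Nat.mul 4 j)) P.b1) 3) 4))) (mn 11 j)

noncomputable def mhi (P : Bx) (i j m : ℕ) : ℕ :=
  sl6 m (Nat.add 12 i) (Nat.div (Nat.sub (mn (Nat.add 4 (Nat.mul 4 i)) P.a1) 25) 4) 100 100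
    (mx 11 (Nat.div (mx (Nat.sub (Nat.mul 4 j) 4) P.b0) 4)) (Nat.succ (mx 11 j))

/-- the mask -/
noncomputable def kpt (lo hi w c : ℕ) : Bool :=
  Bool.rec (Bool.rec false (Nat.blt c hi) (Nat.ble lo c))
    (Bool.rec true (Nat.ble hi c) (Nat.ble lo c)) (Nat.beq w 4)

/-- one lane of the terms which depend on the state only -/
noncomputable def gL (a T e s s' u u' u'' o p q : ℕ) : ℕ :=
  Nat.add (Nat.add (lane 32 a o) (Nat.mul e (lane 32 T (Nat.add (Nat.mul s q) (Nat.mul s' p)))))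
    (Nat.sub 8388608 (Nat.add (Nat.mul (Nat.add (Nat.mul u q) u') p) (Nat.mul u'' q)))

/-- these terms for a segment; `f = e - 1` -/
noncomputable def segG (OH OV : ℕ → ℕ) (P : Bx) (a e f i j : ℕ) (σ : Sg) (k : ℕ → Bool) : Bool :=
  fz σ.vt fun v => fz (Nat.sub 1 v) fun v' => fz σ.ms fun m =>
  fz (Bool.rec (OV σ.kp) (OH σ.kp) (Nat.beq v 0)) fun T =>
  fz (Nat.add v (Nat.mul 65 v')) fun s => fz (Nat.add v' (Nat.mul 23 v)) fun s' =>
  fz (Nat.mul 2048 f) fun u => fz (Nat.mul 22528 (Nat.sub 1 f)) fun u' =>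
  fz (Nat.sub 131072 (Nat.mul 65536 f)) fun u'' => fz (mlo P i j m) fun lo =>
  fz (mhi P i j m) fun hi => fz (Nat.sub σ.po (cM σ (Nat.sub i P.xl) 0)) fun o =>
  fz σ.x4 fun x => fz (Nat.add σ.y4 (Nat.mul σ.mn j)) fun y =>
  fz (Nat.add (Nat.mul v y) (Nat.mul v' x)) fun c =>
  pkC 134217728 (fun t => Bool.rec 0 (fz (Nat.add x (Nat.mul v' t)) fun p =>
    fz (Nat.add y (Nat.mul v t)) fun q => gL a T e s s' u u' u'' (Nat.add o t) p q)
    (kpt lo hi m (Nat.add c t))) σ.n k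

/-- the data of a corner -/
structure Cd where
  (G rp rn ip im L pB pC cA eE x y : ℕ)

noncomputable def cor (OH OV : ℕ → ℕ) (P : Bx) (a e f : ℕ) (l : List Sg) (V : Sv) (i j : ℕ)
    (k : Cd → Bool) : Bool :=
  cw0 P i j fun w => vecK (segG OH OV P a e f i j) l fun G =>
  fz (Nat.mul 4 i) fun x => fz (Nat.mul 4 j) fun y =>
  fz (Nat.add V.zp (Nat.mul x V.re)) fun rp => fz (Nat.add V.zn (Nat.mul x V.nr)) fun rn =>
  fz (Nat.add V.ip (Nat.mul y V.mn)) fun ip => fz (Nat.add V.im (Nat.mul y V.nm)) fun im =>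
  fz (Nat.add rn (Nat.mul x V.C)) fun rn' => fz (Nat.add im (Nat.mul y V.C)) fun im' =>
  fz (Nat.add (Nat.add (pmax 31 V.H rp rn') (pmax 31 V.H ip im')) V.rd) fun L =>
  fz (Nat.add 1024 x) fun X => fz (Nat.add 980 y) fun Y =>
  fz (Nat.add (Nat.add (Nat.mul e (tB TPpU256 X Y)) (Nat.mul f (Nat.mul 128 y)))
    (Nat.mul 5632 (Nat.sub 1 f))) fun pB =>
  fz (Nat.add (Nat.add (Nat.mul e (tC TApU256 X Y)) (Nat.mul f (Nat.mul 128 x)))
    (Nat.sub 32768 (Nat.mul 16384 f))) fun pC =>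
  fz (Nat.add (Nat.add (Nat.add (Nat.mul e (Nat.add (tA TGmU256 X Y) (Nat.succ (Nat.mul 16 w))))
    (Nat.mul (Nat.mul 5632 (Nat.sub 1 f)) x)) (Nat.mul f (Nat.mul 128 (Nat.mul x y))))
    (Nat.mul (Nat.sub 32768 (Nat.mul 16384 f)) y)) fun cA =>
  fz (Nat.mul e (Nat.add 2 (e1 w 32))) fun eE => k ⟨G, rp, rn, ip, im, L, pB, pC, cA, eE, x, y⟩

/-- the data of the third tangent point -/
structure Gd where
  (B C A E : ℕ)

noncomputable def gam (S : Sx) (f s v : ℕ) (k : Gd → Bool) : Bool :=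
  cw2 S s v fun w => fz (Nat.sub 1280 (Nat.mul 4 s)) fun X => fz (Nat.sub 1112 (Nat.mul 4 v)) fun Y =>
  fz (Nat.add (tB TPpU256 X Y) (Nat.mul 262144 f)) fun B =>
  fz (Nat.add (tC TApU256 X Y) (Nat.mul 262144 f)) fun C =>
  fz (Nat.add (Nat.add (tA TGmU256 X Y) (Nat.mul 32 w)) 2147483650) fun A =>
  fz (Nat.add 2 (e1 w 64)) fun E => k ⟨B, C, A, E⟩

/-- the vector of a side and its offset -/
noncomputable def lv (p : Cd) (g : Gd) (x' y' : ℕ) (k : ℕ → ℕ → Bool) : Bool :=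
  fz (Nat.add g.B (Nat.mul 128 y')) fun nB => fz (Nat.add g.C (Nat.mul 128 x')) fun nC =>
  fz (Nat.sub p.pB nB) fun a => fz (Nat.sub nB p.pB) fun a' =>
  fz (Nat.sub p.pC nC) fun b => fz (Nat.sub nC p.pC) fun b' => fz (Nat.add p.eE g.E) fun E =>
  Bool.rec false (fz (Nat.add (Nat.add (Nat.add (Nat.add (Nat.add p.G (Nat.mul E p.L))
      (Nat.mul a p.rp)) (Nat.mul a' p.rn)) (Nat.mul b p.ip)) (Nat.mul b' p.im)) fun v =>
    fz (Nat.add (Nat.add (Nat.add (Nat.add (Nat.mul E (Nat.add (Nat.add 384 p.x) p.y))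
      (Nat.mul a (Nat.add 256 p.x))) (Nat.mul a' 256)) (Nat.mul b (Nat.add 128 p.y)))
      (Nat.mul b' 128)) fun o => k v o)
    (Nat.ble (Nat.add a a') 262144 && Nat.ble (Nat.add b b') 262144)

/-- the constants of the matrices -/
structure Mc where
  (C CH CT MC H K : ℕ)

/-- a vector as a column -/
noncomputable def wid (μ : Mc) (v : ℕ) : ℕ := Nat.land (Nat.mul v μ.CH) μ.MC

/-- the test of a pair of corners -/
noncomputable def tstP (μ : Mc) (M : ℕ) (p q : Cd) (g : Gd) : Bool :=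
  lv p g q.x q.y fun u o => lv q g p.x p.y fun u' o' =>
  fz (Nat.sub (Nat.add (Nat.add g.A p.cA) q.cA) (Nat.add (Nat.add (Nat.add o o') μ.K)
    (Nat.mul 128 (Nat.add (Nat.mul p.x q.y) (Nat.mul p.y q.x))))) fun κ =>
  Bool.rec false (Nat.beq (Nat.land (Nat.add (Nat.add (Nat.mul (Nat.add u (Nat.mul κ μ.C)) μ.CT)
    (Nat.mul (wid μ u') μ.C)) M) μ.H) 0) (Nat.ble κ 2147483648)

/-- the terms which depend on both states -/
noncomputable def mat (W CW CD : ℕ) (GH GV : ℕ → ℕ) (l l' : List Sg) (μ : Mc) (V V' : Sv)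
    (cw j j' : ℕ) : ℕ :=
  Nat.add (Nat.add (tmat W CW CD GH GV l l' j j')
    (Nat.mul V.cx (wid μ (Nat.mul 2048 (Nat.add V'.cy (Nat.mul j' V'.mn))))))
    (Nat.mul (Nat.mul 2048 (Nat.add V.cy (Nat.mul j V.mn))) cw)

/-- the segment fits the window -/
def sgOK (h : ℕ) (σ : Sg) : Prop := (σ.vt = 0 ∧ σ.kp ∈ [11, 6, 5] ∨ σ.vt = 1 ∧ σ.kp ∈ [1, 2]) ∧
  σ.n ≤ 64 ∧ σ.x4 + (1 - σ.vt) * σ.n + σ.vt ≤ 65 ∧ σ.y4 + σ.mn * h + σ.vt * σ.n ≤ 22 + σ.vt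

instance (h : ℕ) (σ : Sg) : Decidable (sgOK h σ) := by unfold sgOK; infer_instance

def lsOK (W h h' : ℕ) (l l' : List Sg) : Prop := (∀ σ ∈ l, sgOK h σ) ∧ (∀ σ ∈ l', sgOK h' σ) ∧
  (W = 264 ∨ (∀ σ ∈ l, σ.vt = 0) ∧ ∀ τ ∈ l', τ.vt = 0) ∧ (∀ σ ∈ l, ∀ τ ∈ l', σ.n + τ.n ≤ W) ∧
  2 ≤ W ∧ tot l < W ∧ tot l' < W

noncomputable instance (W h h' : ℕ) (l l' : List Sg) : Decidable (lsOK W h h' l l') := by
  unfold lsOK; infer_instance

/-- all pairs of lanes of `l` and `l'` -/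
noncomputable def job (W CW CD : ℕ) (GH GV OH OV : ℕ → ℕ) (P Q : Bx) (S : Sx)
    (e a b c d a' b' c' d' : ℕ) (l l' : List Sg) (ya n : ℕ) : Bool :=
  Bool.rec false (fz (Nat.sub e 1) fun f => sideV b c d l fun V => sideV b' c' d' l' fun V' =>
  fz (tot l') fun m => fz (comb (Nat.mul 32 (Nat.sub W 1)) m) fun CH =>
  fz (comb (Nat.mul 32 W) m) fun CT => fz (Nat.mul 4294967295 CT) fun MC =>
  fz (hiB 31 (Nat.mul W m)) fun H => fz (Nat.add 81920000 (Nat.mul 63176704 e)) fun K =>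
  (fun μ : Mc => fz (wid μ V'.cx) fun cw => fz (Nat.sub (Nat.succ S.sh) S.sl) fun ns =>
    loopP P Q S ya n (cor OH OV P a e f l V) (cor OH OV Q a' e f l' V')
      (fun j j' k => fz (mat W CW CD GH GV l l' μ V V' cw j j') fun M =>
        fz (Nat.add j j') fun v => mkL (fun s => gam S f s v) S.sl ns fun L => k (M, L))
      fun i _ i' _ T p q => fz (Nat.add i i') fun s => fnd T.2 s (tstP μ T.1 p q))
    ⟨V.C, CH, CT, MC, H, K⟩) (decide (lsOK W P.yh Q.yh l l'))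

/-- the segments of the first group -/
noncomputable def sg1 (P : Bx) (X XB : ℕ) (k : List Sg → Bool) : Bool :=
  fz (Nat.sub P.xl 8) fun x0 => fz (Nat.add 20 (Nat.sub P.xh P.xl)) fun n0 =>
  fz (mn 26 (Nat.div (Nat.sub P.a1 25) 4)) fun n1 =>
  fz (mx 16 (Nat.div (Nat.add P.a0 44) 4)) fun x2 => fz (Nat.succ X) fun X1 =>
  fz (Nat.sub X1 x2) fun n2 => fz (Nat.add 10 x2) fun p2 => fz (mn 11 P.yl) fun y5 =>
  fz (Nat.sub (Nat.succ (mx 11 P.yh)) y5) fun n5 => fz (Nat.add 221 y5) fun p5 =>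
  fz (Nat.add 244 y5) fun p6 => fz (Nat.sub (Nat.succ XB) X) fun n7 => fz (Nat.add 277 X) fun p7 =>
  k [⟨n0, 0, 477, x0, 0, 0, 1, 11, 0, 1, 0, .MR⟩, ⟨n1, 0, 0, 0, 0, 0, 1, 6, 0, 0, 1, .ML⟩,
    ⟨n2, 0, p2, x2, 0, 0, 1, 6, 0, 0, 2, .MH⟩, ⟨X1, 0, 65, 0, 22, 0, 0, 5, 0, 0, 3, .Tp⟩,
    ⟨X1, 0, 120, 0, 0, 0, 0, 5, 0, 0, 3, .Bt⟩, ⟨23, 0, 175, 0, 0, 1, 0, 1, 0, 0, 4, .W0⟩,
    ⟨23, 0, 198, X, 0, 1, 0, 1, 0, 0, 4, .WX⟩, ⟨n5, 0, p5, 0, y5, 1, 0, 2, 0, 0, 5, .I0⟩,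
    ⟨n5, 0, p6, X, y5, 1, 0, 2, 0, 0, 5, .IX⟩, ⟨n7, 0, p7, X, 11, 0, 0, 5, 1, 0, 3, .A⟩,
    ⟨17, 0, 366, 0, 11, 0, 0, 5, 1, 0, 3, .N false true⟩]

/-- the segments of the second group -/
noncomputable def sg2 (XB : ℕ) (k : List Sg → Bool) : Bool :=
  fz (Nat.sub 65 XB) fun n => fz (Nat.add 284 XB) fun p =>
  k [⟨n, 0, p, XB, 11, 0, 0, 5, 1, 0, 3, .B⟩, ⟨17, 0, 349, 0, 11, 0, 0, 5, 1, 1, 3, .N true false⟩,
    ⟨17, 0, 383, 0, 11, 0, 0, 5, 1, 1, 3, .N true true⟩]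

/-- the check of the rows `ya, …, ya + n - 1` of corners -/
noncomputable def farRow (C1 D1 C2 D2 : ℕ) (GH GV OH OV : ℕ → ℕ) (P Q : Bx) (S : Sx)
    (e a b c d X XB a' b' c' d' X' XB' ya n : ℕ) : Bool :=
  fz e fun e => fz a fun a => fz b fun b => fz c fun c => fz d fun d => fz X fun X =>
  fz XB fun XB => fz a' fun a' => fz b' fun b' => fz c' fun c' => fz d' fun d' => fz X' fun X' =>
  fz XB' fun XB' => fz C1 fun C1 => fz D1 fun D1 => fz C2 fun C2 => fz D2 fun D2 =>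
  Bool.rec false (sg1 P X XB fun l => sg1 Q X' XB' fun l' =>
      job 264 C1 D1 GH GV OH OV P Q S e a b c d a' b' c' d' l l' ya n)
    (sg2 XB fun l => sg2 XB' fun l' =>
      job 64 C2 D2 GH GV OH OV P Q S e a b c d a' b' c' d' l l' ya n)

end Pool.Agent.Lib.VC2.TB.FX
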