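import Pool.Agent.Lib.VC2.DX1

/-! The direct rows, far states: vectors along segments. -/

namespace Pool.Agent.Lib.VC2.TB.FX

open Pool.Agent.Lib.MP_759431_gt.AB Pool.Agent.Lib.MP_759431_gt.AB.DR

/-- upper bounds along the segments -/
def UL (l : List Sg) (v B : ℕ) (F : Sg → ℕ → ℤ) : Prop :=
  UB 32 (tot l) v B (loc (fun σ t => (F σ t : ℝ)) l)

namespace UL

variable {l : List Sg} {v v' B B' : ℕ} {F F' : Sg → ℕ → ℤ}

theorem of {G : ℕ → ℝ} (h : UB 32 (tot l) v B G) (hB : B ≤ B') (hF : ∀ σ ∈ l, ∀ t < σ.n, ∀ q,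
    (∀ f : Sg → ℕ → ℝ, loc f l q = f σ t) → (F σ t : ℝ) ≤ G q) : UL l v B' F :=
  h.mono hB fun q hq => by
    obtain ⟨σ, a, t, b, c⟩ := loc_ex hq
    rw [c]; exact hF σ a t b q (c ℝ)

theorem mono (h : UL l v B F) (hB : B ≤ B') (hF : ∀ σ ∈ l, ∀ t < σ.n, F' σ t ≤ F σ t) :
    UL l v B' F' := of h hB fun σ a t b q c => by rw [c]; exact_mod_cast hF σ a t b

theorem add (h : UL l v B F) (h' : UL l v' B' F') :
    UL l (Nat.add v v') (B + B') fun σ t => F σ t + F' σ t :=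
  of (UB.add h h') le_rfl fun σ a t b q c => by simp only [c]; push_cast; rfl

theorem smul (c : ℕ) (h : UL l v B F) : UL l (Nat.mul c v) (c * B) fun σ t => c * F σ t :=
  of (UB.smul c h) le_rfl fun σ a t b q c => by simp only [c]; push_cast; rfl

theorem bc (l : List Sg) (c : ℕ) : UL l (Nat.mul c (comb 32 (tot l))) c fun _ _ => c :=
  of (UB.bcast (by norm_num) _ c) le_rfl fun _ _ _ _ _ _ => by simp

theorem max (h : UL l v B F) (h' : UL l v' B F') (hB : B < 2 ^ 31) :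
    UL l (pmax 31 (Nat.mul 2147483648 (comb 32 (tot l))) v v') B fun σ t =>
      Max.max (F σ t) (F' σ t) :=
  of (UB.max (u := 31) h h' hB) le_rfl fun σ a t b q c => by simp only [c]; push_cast; rfl

end UL

theorem vecK_ok {mk : Sg → (ℕ → Bool) → Bool} {B : ℕ} {F : Sg → ℕ → ℤ} {l : List Sg}
    (hm : ∀ σ ∈ l, ∀ k, mk σ k = true → ∃ v, k v = true ∧ UB 32 σ.n v B fun t => F σ t)
    {k : ℕ → Bool} (h : vecK mk l k = true) : ∃ v, k v = true ∧ UL l v B F := by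
  induction l generalizing k with
  | nil => exact ⟨0, h, 0, by simp [pk], by simp⟩
  | cons σ l ih =>
    obtain ⟨v, h, a⟩ := ih (fun τ m => hm τ (by simp [m])) h
    obtain ⟨w, h, b⟩ := hm σ (by simp) _ h
    exact ⟨_, (fz_e ..).symm.trans h, UB.concat b a⟩

theorem vecC_ok {B : ℕ} {g : Sg → ℕ → ℕ} {l : List Sg} {k : ℕ → Bool} (h : vecC B g l k = true) :
    ∃ v, k v = true ∧ UL l v B fun σ t => g σ t :=
  vecK_ok (fun σ _ k h => by simpa only [Int.cast_natCast] using pkC_ok h) h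

/-- the meaning of the vectors of a side -/
def SvOK (b c d : ℕ) (l : List Sg) (V : Sv) : Prop :=
  (V.C = comb 32 (tot l) ∧ V.H = Nat.mul 2147483648 (comb 32 (tot l))) ∧
  (UL l V.zp 512 (fun σ t => rb b σ t - 768) ∧ UL l V.zn 512 (fun σ t => 1280 - rb b σ t) ∧
    UL l V.re 1 (fun σ _ => σ.re) ∧ UL l V.nr 1 fun σ _ => 1 - σ.re) ∧
  (UL l V.ip 288 (fun σ t => rc c σ t - 896) ∧ UL l V.im 256 (fun σ t => 1152 - rc c σ t) ∧
    UL l V.mn 1 (fun σ _ => σ.mn) ∧ UL l V.nm 1 fun σ _ => 1 - σ.mn) ∧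
  UL l V.rd 264 (fun σ t => rd d σ t) ∧ UL l V.cx 64 (fun σ t => σ.cx t) ∧
  UL l V.cy 22 fun σ t => σ.y4 + σ.vt * t

theorem sideV_ok {b c d : ℕ} {l : List Sg} {k : Sv → Bool} (h : sideV b c d l k = true) :
    ∃ V, k V = true ∧ SvOK b c d l V := by
  simp only [sideV, fz_e] at h
  obtain ⟨_, h, a1⟩ := vecC_ok h
  obtain ⟨_, h, a2⟩ := vecC_ok h
  obtain ⟨_, h, a3⟩ := vecC_ok h
  obtain ⟨_, h, a4⟩ := vecC_ok h
  obtain ⟨_, h, a5⟩ := vecC_ok h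
  obtain ⟨_, h, a6⟩ := vecC_ok h
  obtain ⟨_, h, a7⟩ := vecC_ok h
  obtain ⟨_, h, a8⟩ := vecC_ok h
  obtain ⟨_, h, a9⟩ := vecC_ok h
  obtain ⟨_, h, a10⟩ := vecC_ok h
  obtain ⟨_, h, a11⟩ := vecC_ok h
  refine ⟨_, h, ⟨rfl, rfl⟩, ⟨a1.mono le_rfl ?_, a2.mono le_rfl ?_, a3, a4.mono le_rfl ?_⟩,
    ⟨a5.mono le_rfl ?_, a6.mono le_rfl ?_, a7, a8.mono le_rfl ?_⟩, a9, a10,
    a11.mono le_rfl fun _ _ _ _ => by simp⟩ <;>
    exact fun _ _ _ _ => by simp only [Nat.sub_eq]; omega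

/-- the offset of the gauge point -/
noncomputable def dR (b i : ℕ) (σ : Sg) (t : ℕ) : ℤ := rb b σ t - 1024 - (1 - σ.re) * (4 * i)

noncomputable def dI (c j : ℕ) (σ : Sg) (t : ℕ) : ℤ := rc c σ t - 1024 - (1 - σ.mn) * (4 * j)

/-- the lane is used -/
noncomputable def kp (P : Bx) (i j : ℕ) (σ : Sg) (t : ℕ) : Bool :=
  kpt (mlo P i j σ.ms) (mhi P i j σ.ms) σ.ms
    (σ.vt * (σ.y4 + σ.mn * j) + (1 - σ.vt) * σ.x4 + t)

/-- the terms which depend on the state only -/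
noncomputable def gZ (P : Bx) (a e i j : ℕ) (σ : Sg) (t : ℕ) : ℤ := if kp P i j σ t then
  lane 32 a (σ.po - cM σ (i - P.xl) 0 + t) +
    e * RD2 TGpU256 (cl4 σ.kp) (1024 + 4 * σ.cx t) (980 + 4 * σ.cy j t) + 8388608 -
    ((2048 * (e - 1) * σ.cy j t + 22528 * (2 - e)) * σ.cx t + (196608 - 65536 * e) * σ.cy j t)
  else 0

theorem sgOK.ok {h j : ℕ} {σ : Sg} (a : sgOK h σ) (hj : j ≤ h) : σ.ok j := by
  obtain ⟨a1, a2, a3, a4⟩ := a
  have := Nat.mul_le_mul_left σ.mn hj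
  refine ⟨a1, a2, fun t ht => ?_⟩
  rcases a1 with ⟨v, -⟩ | ⟨v, -⟩ <;> simp only [Sg.cx, Sg.cy, v] at a3 a4 ⊢ <;> omega

variable {GH GV OH OV : ℕ → ℕ} {GC OC GF GD OF OD : ℕ} {P : Bx} {t : ℕ → ℤ}

theorem segG_ok (T : Tabs GH GV OH OV GC OC GF GD OF OD) {a e i j : ℕ} {σ : Sg} (o : σ.ok j)
    (he : e = 1 ∨ e = 2) {k : ℕ → Bool} (h : segG OH OV P a e (Nat.sub e 1) i j σ k = true) :
    ∃ v, k v = true ∧ UB 32 σ.n v 134217728 fun t => gZ P a e i j σ t := by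
  simp only [segG, fz_e] at h
  obtain ⟨v, h, u⟩ := pkC_ok h
  refine ⟨v, h, u.mono le_rfl fun t ht => ?_⟩
  obtain ⟨o1, -, o3⟩ := o
  obtain ⟨c1, c2⟩ := o3 t ht
  have l : RD2 TGpU256 (cl4 σ.kp) (1024 + 4 * σ.cx t) (980 + 4 * σ.cy j t) ≤
      lane 32 (Bool.rec (OV σ.kp) (OH σ.kp) (Nat.beq σ.vt 0))
        ((σ.vt + 65 * (1 - σ.vt)) * σ.cy j t + (1 - σ.vt + 23 * σ.vt) * σ.cx t) := by
    rcases o1 with ⟨v, m⟩ | ⟨v, m⟩ <;> rw [v]
    · simpa [tO] using (T.oh _ m).lane (by norm_num) le_rfl (y := σ.cy j t) (x := σ.cx t)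
        (by omega) (by omega)
    · have := (T.ov _ m).lane (by norm_num) le_rfl (y := σ.cx t) (x := σ.cy j t)
        (by omega) (by omega)
      rw [add_comm] at this
      simpa [tO, show Nat.beq 1 0 = false from rfl] using this
  rw [gZ, kp]
  simp only [Nat.add_eq, Nat.mul_eq, Nat.sub_eq]
  cases kpt _ _ _ _
  · simp
  · simp only [if_true, gL, Nat.add_eq, Nat.mul_eq, Nat.sub_eq]
    refine (Int.cast_le.2 ?_).trans_eq (Int.cast_natCast _)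
    change _ ≤ ((_ + e * lane 32 _ (_ * σ.cy j t + _ * σ.cx t) + (8388608 -
      ((_ * σ.cy j t + _) * σ.cx t + _ * σ.cy j t)) : ℕ) : ℤ)
    generalize lane 32 (Bool.rec _ _ _) _ = L at l
    generalize RD2 _ _ _ _ = R at l
    generalize σ.cx t = p, σ.cy j t = q
    rcases he with rfl | rfl
    · omega
    · have : ((2048 * (2 - 1) * q + 22528 * (1 - (2 - 1))) * p : ℕ) = 2048 * (q * p) := by ring
      have : ((2048 * (((2 : ℕ) : ℤ) - 1) * q + 22528 * (2 - (2 : ℕ))) * p : ℤ) =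
        2048 * (q * p : ℕ) := by push_cast; ring
      omega

/-- the meaning of the data of a corner -/
def CdOK (t : ℕ → ℤ) (P : Bx) (a b c d e : ℕ) (l : List Sg) (i j : ℕ) (p : Cd) : Prop :=
  ∃ w r, (H0 t (4 * i) (4 * j - 44) r ∧ r.ct w ∧ w ≤ 1024) ∧
  (UL l p.G 134217728 (gZ P a e i j) ∧ UL l p.rp 644 (fun σ t => dR b i σ t + 256 + 4 * i) ∧
    UL l p.rn 644 (fun σ t => 256 - dR b i σ t) ∧
    UL l p.ip 376 (fun σ t => dI c j σ t + 128 + 4 * j) ∧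
    UL l p.im 344 (fun σ t => 128 - dI c j σ t) ∧ UL l p.L 1472 fun σ t =>
      |dR b i σ t| + |dI c j σ t| + rd d σ t + (384 + 4 * i + 4 * j)) ∧
  (p.pB : ℤ) = e * (tBz (4 * i) (4 * j - 44) + 262144) + (e - 1) * (512 * j) + 5632 * (2 - e) ∧
  (p.pC : ℤ) = e * (tCz (4 * i) (4 * j - 44) + 262144) + (e - 1) * (512 * i) + (49152 - 16384 * e) ∧
  (p.cA : ℤ) = e * (tAz (4 * i) (4 * j - 44) + 27590656 + (16 * w + 1)) + 22528 * (2 - e) * i +
    (e - 1) * (2048 * (i * j)) + (49152 - 16384 * e) * (4 * j) ∧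
  p.eE = e * (2 + e1 w 32) ∧ p.x = 4 * i ∧ p.y = 4 * j

theorem cor_ok (T : Tabs GH GV OH OV GC OC GF GD OF OD) (h : P.ok t) {a b c d e i j : ℕ}
    {l : List Sg} {V : Sv} (he : e = 1 ∨ e = 2) (hl : ∀ σ ∈ l, sgOK P.yh σ) (hV : SvOK b c d l V)
    {k : Cd → Bool} (hk : cor OH OV P a e (Nat.sub e 1) l V i j k = true) :
    ∃ p, k p = true ∧ (i ≤ P.xh → j ≤ P.yh → CdOK t P a b c d e l i j p) := by
  obtain ⟨w, hw, ⟨r, h0, ct⟩, hk⟩ := cw0_ok h hk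
  by_cases hj : j ≤ P.yh
  swap
  · obtain ⟨G, hk, -⟩ := vecK_ok (B := 134217728) (F := fun _ _ => 0) (fun σ _ k g => by
      simp only [segG, fz_e] at g
      obtain ⟨v, g, u⟩ := pkC_ok g
      exact ⟨v, g, u.mono le_rfl fun _ _ => by simp⟩) hk
    simp only [fz_e] at hk
    exact ⟨_, hk, fun _ c => absurd c hj⟩
  obtain ⟨G, hk, g⟩ := vecK_ok (fun σ m k => segG_ok T ((hl σ m).ok hj) he) hk
  have ex : Nat.add 1024 (Nat.mul 4 i) = nz (4 * i) := by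
    simp only [nz, Nat.add_eq, Nat.mul_eq]; omega
  have ey : Nat.add 980 (Nat.mul 4 j) = nz (4 * j - 44) := by
    simp only [nz, Nat.add_eq, Nat.mul_eq]; omega
  simp only [fz_e, ex, ey] at hk
  refine ⟨_, hk, fun hi _ => ⟨w, r, ⟨h0, ct, hw⟩, ?_, ?_⟩⟩
  · obtain ⟨⟨v1, v2⟩, ⟨a1, a2, a3, a4⟩, ⟨b1, b2, b3, b4⟩, a5, -⟩ := hV
    have := h.2.2
    have c1 : UL l _ 644 fun σ t => dR b i σ t + 256 + 4 * i :=
      (a1.add (a3.smul (Nat.mul 4 i))).mono (by simp only [Nat.mul_eq]; omega) fun σ _ t _ => by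
        simp only [dR, Nat.mul_eq]; push_cast; linarith
    have c2 : UL l _ 644 fun σ t => 256 - dR b i σ t :=
      (a2.add (a4.smul (Nat.mul 4 i))).mono (by simp only [Nat.mul_eq]; omega) fun σ _ t _ => by
        simp only [dR, Nat.mul_eq]; push_cast; linarith
    have c3 : UL l _ 376 fun σ t => dI c j σ t + 128 + 4 * j :=
      (b1.add (b3.smul (Nat.mul 4 j))).mono (by simp only [Nat.mul_eq]; omega) fun σ _ t _ => by
        simp only [dI, Nat.mul_eq]; push_cast; linarith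
    have c4 : UL l _ 344 fun σ t => 128 - dI c j σ t :=
      (b2.add (b4.smul (Nat.mul 4 j))).mono (by simp only [Nat.mul_eq]; omega) fun σ _ t _ => by
        simp only [dI, Nat.mul_eq]; push_cast; linarith
    refine ⟨g, c1, c2, c3, c4, ?_⟩
    simp only [v1, v2]
    refine ((((c1.mono (B' := 776) (by norm_num) fun _ _ _ _ => le_rfl).max
      ((c2.add (UL.bc l _)).mono ?_ fun _ _ _ _ => le_rfl) (by norm_num)).add
      ((c3.mono (B' := 432) (by norm_num) fun _ _ _ _ => le_rfl).max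
      ((c4.add (UL.bc l _)).mono ?_ fun _ _ _ _ => le_rfl) (by norm_num))).add a5).mono le_rfl
      fun σ _ t _ => ?_ <;> simp only [Nat.mul_eq, abs_eq_max_neg] <;> omega
  · simp only [tAz, tBz, tCz, Nat.add_eq, Nat.mul_eq, Nat.sub_eq, Nat.succ_eq_add_one]
    rcases he with rfl | rfl <;> refine ⟨?_, ?_, ?_, trivial, trivial, trivial⟩ <;> push_cast <;> ring

/-- the meaning of the data of the third point -/
def GdOK (H : Rc → Prop) (e : ℕ) (x y : ℤ) (g : Gd) : Prop := ∃ w r,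
  (H r ∧ r.ct w ∧ w ≤ 1024) ∧ (g.B : ℤ) = tBz x y + 262144 * e ∧ (g.C : ℤ) = tCz x y + 262144 * e ∧
  (g.A : ℤ) = tAz x y + 27590656 + 32 * w + 2147483650 ∧ g.E = 2 + e1 w 64

theorem gam_ok {Q : Bx} {S : Sx} {t' : ℕ → ℤ} (h : P.ok t) (h' : Q.ok t') (hS : S.ok t 8 P Q)
    {e s v : ℕ} (he : e = 1 ∨ e = 2) {k : Gd → Bool} (hk : gam S (Nat.sub e 1) s v k = true) :
    ∃ g, k g = true ∧ (s ≤ 128 → v ≤ 64 →
      GdOK (H2 t t' (4 * s) (4 * v - 88)) e (256 - 4 * s) (88 - 4 * v) g) := by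
  obtain ⟨w, hw, ⟨r, h0, ct⟩, hk⟩ := cw2_ok h h' hS rfl rfl hk
  simp only [fz_e] at hk
  refine ⟨_, hk, fun a b => ⟨w, r, ⟨h0, ct, hw⟩, ?_⟩⟩
  have ex : Nat.sub 1280 (Nat.mul 4 s) = nz (256 - 4 * s) := by
    simp only [nz, Nat.sub_eq, Nat.mul_eq]; omega
  have ey : Nat.sub 1112 (Nat.mul 4 v) = nz (88 - 4 * v) := by
    simp only [nz, Nat.sub_eq, Nat.mul_eq]; omega
  simp only [ex, ey]
  simp only [tAz, tBz, tCz, Nat.add_eq, Nat.mul_eq, Nat.sub_eq]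
  exact ⟨by omega, by omega, by omega, trivial⟩

/-- the part of the inequality which belongs to a side -/
noncomputable def lvF (P : Bx) (a b c d e i j : ℕ) (p : Cd) (g : Gd) (x' y' : ℕ) (σ : Sg) (t : ℕ) :
    ℤ := gZ P a e i j σ t + (p.eE + g.E) * (|dR b i σ t| + |dI c j σ t| + rd d σ t) +
  (p.pB - g.B - 128 * y') * dR b i σ t + (p.pC - g.C - 128 * x') * dI c j σ t

theorem lv_ok {a b c d e i j x' y' : ℕ} {l : List Sg} {p : Cd} {g : Gd} (he : e ≤ 2)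
    (hp : CdOK t P a b c d e l i j p) (hg : g.E ≤ 12884) {k : ℕ → ℕ → Bool}
    (h : lv p g x' y' k = true) : ∃ v o, k v o = true ∧
      UL l v 536870912 fun σ t => lvF P a b c d e i j p g x' y' σ t + o := by
  obtain ⟨w, r, ⟨-, -, hw⟩, ⟨a1, a2, a3, a4, a5, a6⟩, -, -, -, b1, b2, b3⟩ := hp
  simp only [lv, fz_e] at h
  obtain ⟨h, m⟩ := rec_false h
  simp only [Bool.and_eq_true, Nat.ble_eq, Nat.add_eq] at m
  have := e1_le hw (M := 32) (by norm_num)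
  have : p.eE ≤ 2 * 12884 := by rw [b1]; gcongr; omega
  refine ⟨_, _, h, (((((a1.add (a6.smul _)).add (a2.smul _)).add (a3.smul _)).add
    (a4.smul _)).add (a5.smul _)).mono (by simp only [Nat.add_eq]; omega) fun σ _ t _ => ?_⟩
  have e1 : ((p.pB : ℤ) - g.B - 128 * y') = Nat.sub p.pB (Nat.add g.B (Nat.mul 128 y')) -
      Nat.sub (Nat.add g.B (Nat.mul 128 y')) p.pB := by
    simp only [Nat.add_eq, Nat.mul_eq, Nat.sub_eq]; omega
  have e2 : ((p.pC : ℤ) - g.C - 128 * x') = Nat.sub p.pC (Nat.add g.C (Nat.mul 128 x')) -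
      Nat.sub (Nat.add g.C (Nat.mul 128 x')) p.pC := by
    simp only [Nat.add_eq, Nat.mul_eq, Nat.sub_eq]; omega
  rw [lvF, e1, e2]
  generalize Nat.sub p.pB _ = u1, Nat.sub _ p.pB = u2, Nat.sub p.pC _ = u3, Nat.sub _ p.pC = u4
  simp only [Nat.add_eq, Nat.mul_eq, b2, b3]
  push_cast
  linarith

end Pool.Agent.Lib.VC2.TB.FX
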