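import Pool.Agent.Lib.VC2.DX2

/-! The direct rows, far states: matrices and the inequality for a pair of lanes. -/

namespace Pool.Agent.Lib.VC2.TB.FX

open Pool.Agent.Lib.MP_759431_gt.AB Pool.Agent.Lib.MP_759431_gt.AB.DR

/-- the constants of the matrices -/
def McOK (W e : ℕ) (l l' : List Sg) (μ : Mc) : Prop := μ.C = comb 32 (tot l) ∧
  μ.CH = comb (32 * (W - 1)) (tot l') ∧ μ.CT = comb (32 * W) (tot l') ∧
  μ.MC = Nat.mul 4294967295 (comb (32 * W) (tot l')) ∧ μ.H = hiB 31 (W * tot l') ∧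
  μ.K = 81920000 + 63176704 * e ∧ tot l < W ∧ tot l' < W

variable {W e : ℕ} {l l' : List Sg} {μ : Mc}

theorem wid_ok (h : McOK W e l l' μ) {v B : ℕ} {F : Sg → ℕ → ℤ} (u : UL l' v B F)
    (hB : B < 2 ^ 32) : UB (32 * W) (tot l') (wid μ v) B (loc (fun σ t => (F σ t : ℝ)) l') := by
  obtain ⟨-, a, -, b, -, -, c, d⟩ := h
  rw [wid, a, b]
  exact (MU.col (MU.hank (k' := 1) u (by omega) (by omega)) hB one_pos (by omega)).mono le_rfl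
    fun y hy => by rw [zero_add, if_pos hy]

theorem loc_nonneg {F : Sg → ℕ → ℤ} (h : ∀ σ t, 0 ≤ F σ t) :
    ∀ y < tot l, 0 ≤ loc (fun σ t => (F σ t : ℝ)) l y := fun y hy => by
  obtain ⟨σ, -, t, -, c⟩ := loc_ex hy
  rw [c]; exact_mod_cast h σ t

/-- bounds for all pairs of lanes -/
def ML (W : ℕ) (l l' : List Sg) (M B : ℕ) (F : Sg → ℕ → Sg → ℕ → ℝ) : Prop :=
  ∃ G, MU W (tot l') (tot l) M B G ∧ ∀ σ t τ s q q', (∀ f : Sg → ℕ → ℝ, loc f l q = f σ t) →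
    (∀ f : Sg → ℕ → ℝ, loc f l' q' = f τ s) → F σ t τ s ≤ G q' q

/-- the terms which depend on both states -/
noncomputable def mF (j j' : ℕ) (σ : Sg) (t : ℕ) (τ : Sg) (s : ℕ) : ℤ :=
  (if t + s < σ.lim τ then RD2 TGpU256 (cl4 (σ.kp + τ.kp)) (1280 - 4 * (σ.cx t + τ.cx s))
    (1112 - 4 * (σ.cy j t + τ.cy j' s)) else 0 : ℕ) +
  2048 * (σ.cx t * τ.cy j' s + σ.cy j t * τ.cx s)

theorem ul_cy {b c d j : ℕ} {V : Sv} (h : SvOK b c d l V) (hj : j ≤ 22) :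
    UL l (Nat.mul 2048 (Nat.add V.cy (Nat.mul j V.mn))) 90112 fun σ t => 2048 * σ.cy j t :=
  ((h.2.2.2.2.2.add (h.2.2.1.2.2.1.smul j)).smul 2048).mono (by omega) fun σ _ t _ => by
    simp only [Sg.cy]; push_cast; linarith

variable {GH GV OH OV : ℕ → ℕ} {GC OC GF GD OF OD : ℕ} {P Q : Bx} {S : Sx} {t t' : ℕ → ℤ}

theorem mat_ok (T : Tabs GH GV OH OV GC OC GF GD OF OD) (h : McOK W e l l' μ)
    {CW CD b c d b' c' d' h0 h1 j j' : ℕ} {V V' : Sv} (hC : CW = comb (32 * W) 64)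
    (hD : CD = comb (32 * (W - 1)) 64) (o : lsOK W h0 h1 l l') (hV : SvOK b c d l V)
    (hV' : SvOK b' c' d' l' V') (hj : j ≤ h0) (hj' : j' ≤ h1) (k0 : h0 ≤ 22) (k1 : h1 ≤ 22) :
    ML W l l' (mat W CW CD GH GV l l' μ V V' (wid μ V'.cx) j j') 45088768
      fun σ t τ s => mF j j' σ t τ s := by
  obtain ⟨o1, o2, o3, o4, o5, o6, o7⟩ := o
  refine ⟨_, ((tmat_ok T o5 hC hD (fun σ m => (o1 σ m).ok hj) (fun σ m => (o2 σ m).ok hj') o3 o6.le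
    o4).add (MU.outr hV.2.2.2.2.1 (wid_ok h (ul_cy hV' (j := j') (by omega)) (by norm_num)) o6.le
      (loc_nonneg fun _ _ => by positivity))).add (MU.outr (ul_cy hV (j := j) (by omega))
      (wid_ok h hV'.2.2.2.2.1 (by norm_num)) o6.le (loc_nonneg fun _ _ => by positivity)),
    fun σ t τ s q q' c c' => ?_⟩
  simp only [tF, c, c', mF, tG]
  push_cast
  linarith

theorem lane_hiB {n i : ℕ} (h : i < n) : lane 32 (hiB 31 n) i = 2 ^ 31 := by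
  rw [hiB, comb_eq (by norm_num), Nat.mul_eq, mul_pk, lane_pk (fun _ _ => by norm_num) h]
  norm_num

theorem GdOK.le {H : Rc → Prop} {x y : ℤ} {g : Gd} (h : GdOK H e x y g) : g.E ≤ 12884 := by
  obtain ⟨w, r, ⟨-, -, a⟩, -, -, -, b⟩ := h
  have := e1_le a (M := 64) le_rfl
  omega

theorem tstP_ok (h : McOK W e l l' μ) (he : e ≤ 2) {a b c d i j a' b' c' d' i' j' M : ℕ}
    {p q : Cd} {g : Gd} {F : Sg → ℕ → Sg → ℕ → ℤ} (hp : CdOK t P a b c d e l i j p)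
    (hq : CdOK t' Q a' b' c' d' e l' i' j' q) (hg : g.E ≤ 12884)
    (hM : ML W l l' M 45088768 fun σ t τ s => F σ t τ s) (hk : tstP μ M p q g = true)
    {σ τ : Sg} {u v : ℕ} (m : σ ∈ l) (hu : u < σ.n) (m' : τ ∈ l') (hv : v < τ.n) :
    lvF P a b c d e i j p g q.x q.y σ u + lvF Q a' b' c' d' e i' j' q g p.x p.y τ v + F σ u τ v +
      (g.A + p.cA + q.cA - (81920000 + 63176704 * e) - 128 * (p.x * q.y + p.y * q.x)) ≤
      2147483647 := by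
  obtain ⟨U, o, hk, a1⟩ := lv_ok he hp hg hk
  obtain ⟨U', o', hk, a2⟩ := lv_ok he hq hg hk
  rw [fz_e] at hk
  have w := wid_ok h a2 (by norm_num)
  obtain ⟨b1, -, b2, -, b3, b4, b5, b6⟩ := h
  rw [b1, b2, b3, b4] at hk
  generalize hκ : Nat.sub _ _ = κ at hk
  obtain ⟨hk, a3⟩ := rec_false hk
  obtain ⟨G, g1, g2⟩ := hM
  obtain ⟨x, hx, c1⟩ := loc_surj m hu
  obtain ⟨y, hy, c2⟩ := loc_surj m' hv
  have k := lane_lt_of_land (u := 31) (Nat.eq_of_beq_eq_true hk) (lane_hiB (idx_lt b5.le hy hx))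
  have a3 := Nat.le_of_ble_eq_true a3
  have z := (((MU.tile (a1.add (UL.bc l κ)) b5.le (by omega) _).add (MU.spread w b5.le)).add
    g1).lane (by omega) b5.le hy hx
  have z := (add_le_add le_rfl (g2 _ _ _ _ _ _ (c1 ℝ) (c2 ℝ))).trans
    (z.trans (Nat.cast_le.2 (Nat.le_of_lt_succ k)))
  rw [c1, c2] at z
  beta_reduce at z
  have z : (lvF P a b c d e i j p g q.x q.y σ u + o + κ +
    (lvF Q a' b' c' d' e i' j' q g p.x p.y τ v + o') + F σ u τ v : ℤ) ≤ (2147483647 : ℕ) := by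
    exact_mod_cast z
  simp only [Nat.add_eq, Nat.mul_eq, Nat.sub_eq] at hκ
  omega

/-- the shape of the steps of a family -/
def kF (F : Fm) : ℕ := 5 * (1 - F.vt + F.ca) + F.vt + F.b1

instance (c : Cl2) (a b d e f g h i j : ℕ) : Decidable (FitS c a b d e f g h i j) := by
  unfold FitS Fit2; infer_instance

theorem fit_one : ∀ v ≤ 1, ∀ a ≤ 1, ∀ b ≤ 1,
    FitS (cl4 (5 * (1 - v + a) + v + b)) v 4 (a * 4) (b * 4) 0 0 0 0 0 := by decide +kernel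

set_option synthInstance.maxSize 1024 in
theorem fit_two : ∀ v ≤ 1, ∀ a ≤ 1, ∀ b ≤ 1, ∀ v' ≤ 1, ∀ a' ≤ 1, ∀ b' ≤ 1,
    FitS (cl4 (5 * (1 - v + a) + v + b + (5 * (1 - v' + a') + v' + b')))
      v 4 (a * 4) (b * 4) (a' * 4) (b' * 4) v' 4 0 := by decide +kernel

theorem bits (F : Fm) : F.vt ≤ 1 ∧ F.ca ≤ 1 ∧ F.b1 ≤ 1 := by
  unfold Fm.vt Fm.ca Fm.b1; split_ifs <;> simp

/-- the lane `u` of `σ` is the state `n` of the family `F` -/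
def Is (P : Bx) (a b c d i j : ℕ) (σ : Sg) (u : ℕ) (F : Fm) (n : Nd) : Prop :=
  u < σ.n ∧ kp P i j σ u = true ∧ σ.kp = kF F ∧ hs F n = 4 ∧ n.zx = 4 * σ.cx u ∧
  n.zy = 4 * σ.cy j u - 44 ∧ n.dr = dR b i σ u ∧ n.di = dI c j σ u ∧
  n.V = lane 32 a (σ.po - cM σ (i - P.xl) 0 + u) - 16777216 ∧ R0 F n = rd d σ u

theorem t0_of {a b c d i j w : ℕ} {σ : Sg} {u : ℕ} {F : Fm} {n : Nd} {H : Rc → Prop} {r : Rc}
    (h : Is P a b c d i j σ u F n) (o : σ.ok j) (h0 : H r) (ct : r.ct w) :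
    T0 H F n (RD2 TGpU256 (cl4 σ.kp) (1024 + 4 * σ.cx u) (980 + 4 * σ.cy j u) - 3997696 +
      (2 + e1 w 32) * (|dR b i σ u| + |dI c j σ u| + rd d σ u) + (16 * w + 1)) := by
  obtain ⟨a0, -, a1, a2, a3, a4, a5, a6, -, a7⟩ := h
  have := o.2.2 u a0
  obtain ⟨b1, b2, b3⟩ := bits F
  refine ⟨by simp only [Win]; omega, r, w, h0, ct, .inl ⟨cl4 (kF F), ?_, ?_⟩⟩
  · rw [a2]; exact fit_one _ b1 _ b2 _ b3
  rw [rdz, show nz n.zx = 1024 + 4 * σ.cx u by unfold nz; omega,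
    show nz n.zy = 980 + 4 * σ.cy j u by unfold nz; omega, a5, a6, a7, a1,
    show w * 32 / 2 = 16 * w by omega]
  exact le_of_eq (by push_cast; rfl)

theorem val_of {a b c d i j a' b' c' d' i' j' : ℕ} {p q : Cd} {g : Gd} (he : e = 1 ∨ e = 2)
    (hp : CdOK t P a b c d e l i j p) (hq : CdOK t' Q a' b' c' d' e l' i' j' q)
    (hg : GdOK (H2 t t' (4 * (i + i' : ℕ)) (4 * (j + j' : ℕ) - 88)) e (256 - 4 * (i + i' : ℕ))
      (88 - 4 * (j + j' : ℕ)) g) {σ τ : Sg} {u v : ℕ} {F F' : Fm} {n n' : Nd}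
    (h : Is P a b c d i j σ u F n) (h' : Is Q a' b' c' d' i' j' τ v F' n') (o : σ.ok j)
    (o' : τ.ok j') (hl : u + v < σ.lim τ)
    (z : lvF P a b c d e i j p g q.x q.y σ u + lvF Q a' b' c' d' e i' j' q g p.x p.y τ v +
      mF j j' σ u τ v + (g.A + p.cA + q.cA - (81920000 + 63176704 * e) -
        128 * (p.x * q.y + p.y * q.x)) ≤ 2147483647) :
    Val t t' e (4 * i) (4 * j - 44) (4 * i') (4 * j' - 44) F n F' n' 0 := by
  obtain ⟨w, r, ⟨h0, ct, -⟩, -, p1, p2, p3, p4, p5, p6⟩ := hp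
  obtain ⟨w', r', ⟨h0', ct', -⟩, -, q1, q2, q3, q4, q5, q6⟩ := hq
  obtain ⟨w2, r2, ⟨h2, ct2, -⟩, g1, g2, g3, g4⟩ := hg
  have u1 := t0_of h o h0 ct
  have u2 := t0_of h' o' h0' ct'
  obtain ⟨a0, a8, a1, a2, a3, a4, a5, a6, a9, a7⟩ := h
  obtain ⟨c0, c8, c1, c2, c3, c4, c5, c6, c9, c7⟩ := h'
  have := o.2.2 u a0
  have := o'.2.2 v c0
  obtain ⟨b1, b2, b3⟩ := bits F
  obtain ⟨b4, b5, b6⟩ := bits F'
  have eX : (256 - 4 * i - 4 * i' : ℤ) = 256 - 4 * (i + i' : ℕ) := by push_cast; ring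
  have eY : (-(4 * j - 44) - (4 * j' - 44) : ℤ) = 88 - 4 * (j + j' : ℕ) := by push_cast; ring
  refine ⟨_, _, _, u1, u2, ⟨by simp only [Win]; omega, r2, w2, ?_, ct2,
    .inl ⟨cl4 (kF F + kF F'), ?_, le_rfl⟩⟩, ?_⟩
  · rwa [show (4 * i + 4 * i' : ℤ) = 4 * (i + i' : ℕ) by push_cast; ring,
      show (4 * j - 44 + (4 * j' - 44) : ℤ) = 4 * (j + j' : ℕ) - 88 by push_cast; ring]
  · rw [a2, c2]; exact fit_two _ b1 _ b2 _ b3 _ b4 _ b5 _ b6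
  rw [rdz, show nz (256 - n.zx - n'.zx) = 1280 - 4 * (σ.cx u + τ.cx v) by unfold nz; omega,
    show nz (-n.zy - n'.zy) = 1112 - 4 * (σ.cy j u + τ.cy j' v) by unfold nz; omega,
    show w2 * 64 / 2 = 32 * w2 by omega, eX, eY]
  simp only [lvF, gZ, mF, a8, c8, if_true, if_pos hl, p1, p2, p3, p4, p5, p6, q1, q2, q3, q4, q5,
    q6, g1, g2, g3, g4] at z
  simp only [lin, pz, a3, a4, a5, a6, a7, a9, c3, c4, c5, c6, c7, c9, ← a1, ← c1]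
  have k1 : |-dR b i σ u - dR b' i' τ v| ≤ |dR b i σ u| + |dR b' i' τ v| := by
    simp only [abs_eq_max_neg]; omega
  have k2 : |-dI c j σ u - dI c' j' τ v| ≤ |dI c j σ u| + |dI c' j' τ v| := by
    simp only [abs_eq_max_neg]; omega
  have k3 := mul_le_mul_of_nonneg_left (add_le_add k1 k2)
    (show (0 : ℤ) ≤ 2 + e1 w2 64 by positivity)
  rcases he with rfl | rfl <;> push_cast at z ⊢ <;> linarith

theorem job_ok (T : Tabs GH GV OH OV GC OC GF GD OF OD) (h : P.ok t) (h' : Q.ok t')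
    (hS : S.ok t 8 P Q) {CW CD a b c d a' b' c' d' ya n : ℕ} (he : e = 1 ∨ e = 2)
    (hC : CW = comb (32 * W) 64) (hD : CD = comb (32 * (W - 1)) 64)
    (hk : job W CW CD GH GV OH OV P Q S e a b c d a' b' c' d' l l' ya n = true) {i j i' j' : ℕ}
    (b1 : P.xl ≤ i ∧ i ≤ P.xh ∧ P.yl ≤ j ∧ j ≤ P.yh)
    (b2 : Q.xl ≤ i' ∧ i' ≤ Q.xh ∧ Q.yl ≤ j' ∧ j' ≤ Q.yh)
    (b3 : S.sl ≤ i + i' ∧ i + i' ≤ S.sh ∧ S.vl ≤ j + j' ∧ j + j' ≤ S.vh) (b4 : ya ≤ j ∧ j < ya + n)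
    {σ τ : Sg} {u v : ℕ} {F F' : Fm} {s s' : Nd} (m : σ ∈ l) (m' : τ ∈ l')
    (z : Is P a b c d i j σ u F s) (z' : Is Q a' b' c' d' i' j' τ v F' s') (hl : u + v < σ.lim τ) :
    Val t t' e (4 * i) (4 * j - 44) (4 * i') (4 * j' - 44) F s F' s' 0 := by
  obtain ⟨hk, o⟩ := rec_false hk
  have o := of_decide_eq_true o
  rw [fz_e] at hk
  obtain ⟨V, hk, v1⟩ := sideV_ok hk
  obtain ⟨V', hk, v2⟩ := sideV_ok hk
  simp only [fz_e] at hk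
  generalize hμ : Mc.mk _ _ _ _ _ _ = μ at hk
  have cm : McOK W e l l' μ := hμ ▸ ⟨v1.1.1, rfl, rfl, rfl, rfl, rfl, o.2.2.2.2.2⟩
  have k0 := h.2.2
  have k1 := h'.2.2
  obtain ⟨p, q, R, g1, g2, g3, g4⟩ := loopP_ok
    (GP := fun i j p => i ≤ P.xh → j ≤ P.yh → CdOK t P a b c d e l i j p)
    (GQ := fun i j p => i ≤ Q.xh → j ≤ Q.yh → CdOK t' Q a' b' c' d' e l' i j p)
    (GT := fun j j' R => R.1 = mat W CW CD GH GV l l' μ V V' (wid μ V'.cx) j j' ∧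
      ∀ x ∈ R.2, x.1 ≤ 128 → j + j' ≤ 64 → GdOK (H2 t t' (4 * x.1) (4 * (j + j' : ℕ) - 88)) e
        (256 - 4 * x.1) (88 - 4 * (j + j' : ℕ)) x.2)
    (fun i j k g => cor_ok T h he o.1 v1 g) (fun i j k g => cor_ok T h' he o.2.1 v2 g)
    (fun j j' k g => by
      obtain ⟨L, g, y⟩ := mkL_all (fun s _ => gam_ok h h' hS he (s := s)) g
      exact ⟨_, g, rfl, y⟩) hk ⟨b1.1, b1.2.1⟩ b4 b2 b3
  obtain ⟨g, y, g4⟩ := fnd_ok g4
  have g5 := g3.2 _ y (by simp only [Nat.add_eq]; omega) (by omega)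
  have g1 := g1 b1.2.1 b1.2.2.2
  have g2 := g2 b2.2.1 b2.2.2.2
  exact val_of he g1 g2 g5 z z' ((o.1 σ m).ok b1.2.2.2) ((o.2.1 τ m').ok b2.2.2.2) hl
    (tstP_ok cm (by omega) g1 g2 g5.le (g3.1 ▸ mat_ok T cm hC hD o v1 v2 b1.2.2.2 b2.2.2.2 k0.2.2
      k1.2.2) g4 m z.1 m' z'.1)

end Pool.Agent.Lib.VC2.TB.FX
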