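import Pool.Agent.Lib.VC2.DX3

/-! The direct rows, far states: all states are lanes. -/

namespace Pool.Agent.Lib.VC2.TB.FX

open Pool.Agent.Lib.MP_759431_gt.AB Pool.Agent.Lib.MP_759431_gt.AB.DR

theorem cM_eq (σ : Sg) (a b : ℕ) : cM σ a b = if σ.ms = 0 then a else b := by
  unfold cM; cases σ.ms <;> rfl

theorem kpt_iff (lo hi w c : ℕ) :
    kpt lo hi w c = true ↔ if w = 4 then c < lo ∨ hi ≤ c else lo ≤ c ∧ c < hi := by
  unfold kpt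
  cases e : Nat.beq w 4 <;> cases e' : Nat.ble lo c <;>
    simp only [Nat.blt_eq, Nat.ble_eq, ← Bool.not_eq_true, Nat.beq_eq] at * <;> simp [e] <;> omega

theorem sl6_eq (m a b c d e f : ℕ) : sl6 m a b c d e f = if m = 0 then a else if m = 1 then b else
    if m = 2 then c else if m = 3 then d else if m = 4 then e else f := by
  rcases m with _ | _ | _ | _ | _ | m <;> rfl

/-- the states of the families `A` are lanes of `l` -/
def Cov (t : ℕ → ℤ) (P : Bx) (PV PR PI PC : ℕ → ℕ → ℕ) (u r : ℕ) (l : List Sg)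
    (A E : Fm → Prop) : Prop := ∀ i j : ℕ, P.xl ≤ i ∧ i ≤ P.xh ∧ P.yl ≤ j ∧ j ≤ P.yh → ∀ F n,
  (HD.pk2 PV PR PI).Nod u r (SD.pk (PV u r) (PR u r) (PI u r) (PC u r)) False
    (rP t (4 * i) (4 * j - 44)) (4 * i) (4 * j - 44) F n → A F → ∃ σ ∈ l, ∃ v ≤ 100,
    Is P (PV u r) (PR u r) (PI u r) (PC u r) i j σ v F n ∧ (σ.ex = 1 → E F) ∧
      (σ.re = 1 → F.real = true ∧ n.nu = 4 * (σ.x4 + v))

variable {t t' : ℕ → ℤ} {P Q : Bx} {PV PR PI PC : ℕ → ℕ → ℕ} {u r X XB : ℕ} {k : List Sg → Bool}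

theorem sg1_ok (h : P.ok t) (hx : XOK (PV u r) (PR u r) (PI u r) (PC u r)) (hX : XS u r = 4 * X)
    (hB : XBN u r = 4 * XB) (hR : 34 ≤ X) (hk : sg1 P X XB k = true) : ∃ l, k l = true ∧
      Cov t P PV PR PI PC u r l (fun F => F.inn = false ∧ F ≠ .B) fun F => F = .MR := by
  simp only [sg1, fz_e] at hk
  refine ⟨_, hk, fun i j c F n N hF => ?_⟩
  obtain ⟨⟨t0, t1, t2, t3⟩, t4, b⟩ := h
  rcases N with N | ⟨rfl, -, J, hJ, rfl⟩ | ⟨h6, v, hv, rfl⟩ | ⟨J, hJ, m, rfl⟩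
  · exact N.2.1.elim
  · refine ⟨_, List.mem_of_getElem? (i := 0) rfl, J + (i - P.xl), by omega, ?_, by simp, by simp⟩
    simp [Is, kp, kpt_iff, mlo, mhi, sl6_eq, cM_eq, kF, Fm.vt, Fm.ca, Fm.b1, Fm.cl, Fm.main, hs,
      Sg.cx, Sg.cy, dR, dI, rb, rc, rd, R0, Fm.cg, Fm.b0, SD.pk, lz,
      show 477 - (i - P.xl) + (J + (i - P.xl)) = 477 + J by omega]
    omega
  · obtain ⟨J, hJ, rfl⟩ : ∃ J : ℕ, J ≤ 22 ∧ v = -44 + 4 * J := ⟨((v + 44) / 4).toNat, by omega⟩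
    obtain ⟨⟨a1, a2, a3, a4⟩, b1, b2, b3, b4⟩ := hx.1 J hJ
    have e : ∀ o, o + min 11 P.yl + (J - min 11 P.yl) = o + J := fun o => by omega
    obtain rfl | rfl : F = .I0 ∨ F = .IX := by cases F <;> simp [Fm.cl] at h6 ⊢
    · refine ⟨_, List.mem_of_getElem? (i := 7) rfl, J - min 11 P.yl, by omega, ?_, by simp, by simp⟩
      simp only [lz] at a1 a2 a3
      simp [Is, kp, kpt_iff, mlo, mhi, sl6_eq, cM_eq, kF, Fm.vt, Fm.ca, Fm.b1, Fm.cl, Fm.main, hs,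
        Sg.cx, Sg.cy, dR, dI, rb, rc, rd, R0, Fm.cg, Fm.b0, Fm.real, HD.px, mn_eq, mx_eq, e, a4,
        ← a1, ← a2]
      omega
    · refine ⟨_, List.mem_of_getElem? (i := 8) rfl, J - min 11 P.yl, by omega, ?_, by simp, by simp⟩
      simp only [lz] at b1 b2 b3
      simp [Is, kp, kpt_iff, mlo, mhi, sl6_eq, cM_eq, kF, Fm.vt, Fm.ca, Fm.b1, Fm.cl, Fm.main, hs,
        Sg.cx, Sg.cy, dR, dI, rb, rc, rd, R0, Fm.cg, Fm.b0, Fm.real, HD.px, mn_eq, mx_eq, e, b4,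
        ← b1, ← b2, HD.pk2, hX]
      omega
  rcases F with _ | _ | _ | _ | _ | _ | _ | _ | _ | _ | _ | _ | ⟨_ | _, _ | _⟩ <;>
    simp only [HD.msk, HD.pk2, Fm.cl, nS, nuS, rP, hX, hB, Fm.inn, reduceCtorEq, or_self,
      false_and, ne_eq, not_true, and_false] at hJ m hF
  on_goal 1 => refine ⟨_, List.mem_of_getElem? (i := 1) rfl, J, by omega, ?_⟩
  on_goal 2 =>
    refine ⟨_, List.mem_of_getElem? (i := 2) rfl, 16 + J - max 16 ((P.a0 + 44) / 4), by omega, ?_⟩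
  on_goal 3 => refine ⟨_, List.mem_of_getElem? (i := 3) rfl, J, by omega, ?_⟩
  on_goal 4 => refine ⟨_, List.mem_of_getElem? (i := 4) rfl, J, by omega, ?_⟩
  on_goal 5 => refine ⟨_, List.mem_of_getElem? (i := 5) rfl, J, by omega, ?_⟩
  on_goal 6 => refine ⟨_, List.mem_of_getElem? (i := 6) rfl, J, by omega, ?_⟩
  on_goal 7 => refine ⟨_, List.mem_of_getElem? (i := 9) rfl, 34 + J - X, by omega, ?_⟩
  on_goal 8 => refine ⟨_, List.mem_of_getElem? (i := 10) rfl, J, by omega, ?_⟩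
  on_goal 2 =>
    have e : 10 + max 16 ((P.a0 + 44) / 4) + (16 + J - max 16 ((P.a0 + 44) / 4)) = 26 + J := by
      omega
  on_goal 7 => have e : 277 + X + (34 + J - X) = 311 + J := by omega
  all_goals
    simp [Is, kp, kpt_iff, mlo, mhi, sl6_eq, cM_eq, kF, Fm.vt, Fm.ca, Fm.b1, Fm.cl, Fm.main, hs,
      Sg.cx, Sg.cy, dR, dI, rb, rc, rd, R0, Fm.cg, Fm.b0, Fm.real, HD.px, HD.py, mn_eq, mx_eq,
      HD.pk2, SD.pk, nuS, Fm.o2, lz, ndiv, *]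
    omega

theorem sg2_ok (hB : XBN u r = 4 * XB) (hR : 48 ≤ XB) (hk : sg2 XB k = true) : ∃ l, k l = true ∧
      Cov t P PV PR PI PC u r l (fun F => F.inn = true ∨ F = .B) fun F => F.inn = true := by
  simp only [sg2, fz_e] at hk
  refine ⟨_, hk, fun i j c F n N hF => ?_⟩
  rcases N with N | ⟨rfl, -, J, hJ, rfl⟩ | ⟨h6, v, hv, rfl⟩ | ⟨J, hJ, m, rfl⟩
  · exact N.2.1.elim
  · simp [Fm.inn] at hF
  · cases F <;> simp [Fm.cl, Fm.inn] at h6 hF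
  rcases F with _ | _ | _ | _ | _ | _ | _ | _ | _ | _ | _ | _ | ⟨_ | _, _ | _⟩ <;>
    simp only [HD.msk, HD.pk2, Fm.cl, nS, nuS, rP, hB, Fm.inn, reduceCtorEq, or_self] at hJ m hF
  on_goal 1 => refine ⟨_, List.mem_of_getElem? (i := 0) rfl, 48 + J - XB, by omega, ?_⟩
  on_goal 2 => refine ⟨_, List.mem_of_getElem? (i := 1) rfl, J, by omega, ?_⟩
  on_goal 3 => refine ⟨_, List.mem_of_getElem? (i := 2) rfl, J, by omega, ?_⟩
  on_goal 1 => have e : 284 + XB + (48 + J - XB) = 332 + J := by omega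
  all_goals
    simp [Is, kp, kpt_iff, mlo, mhi, sl6_eq, cM_eq, kF, Fm.vt, Fm.ca, Fm.b1, Fm.cl, Fm.main, hs,
      Sg.cx, Sg.cy, dR, dI, rb, rc, rd, R0, Fm.cg, Fm.b0, Fm.real, HD.px, HD.py, mn_eq, mx_eq,
      HD.pk2, SD.pk, nuS, Fm.o2, lz, Fm.inn, *]
    omega

theorem lim_of {σ τ : Sg} {v v' : ℕ} {F F' : Fm} {a a' : ℤ} {E E' : Prop} (h : v ≤ 100)
    (h' : v' ≤ 100) (e : σ.ex = 1 → E) (e' : τ.ex = 1 → E') (n : ¬(E ∧ E'))
    (s : σ.re = 1 → F.real = true ∧ a = 4 * (σ.x4 + v))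
    (s' : τ.re = 1 → F'.real = true ∧ a' = 4 * (τ.x4 + v'))
    (c : F.real = true → F'.real = true → a + a' < 264) : v + v' < σ.lim τ := by
  rw [Sg.lim, if_neg fun m => n ⟨e m.1, e' m.2⟩]
  split_ifs with m
  · have := c (s m.1).1 (s' m.2).1
    have := (s m.1).2
    have := (s' m.2).2
    omega
  · omega

variable {GH GV OH OV : ℕ → ℕ} {GC OC GF GD OF OD : ℕ} {S : Sx}

theorem farRow_ok (T : Tabs GH GV OH OV GC OC GF GD OF OD) (h : P.ok t) (h' : Q.ok t')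
    (hS : S.ok t 8 P Q) {C1 D1 C2 D2 e u' r' X' XB' ya n : ℕ} (he : e = 1 ∨ e = 2)
    (c1 : C1 = comb (32 * 264) 64) (d1 : D1 = comb (32 * (264 - 1)) 64)
    (c2 : C2 = comb (32 * 64) 64) (d2 : D2 = comb (32 * (64 - 1)) 64)
    (hx : XOK (PV u r) (PR u r) (PI u r) (PC u r))
    (hx' : XOK (PV u' r') (PR u' r') (PI u' r') (PC u' r'))
    (hX : XS u r = 4 * X ∧ XBN u r = 4 * XB ∧ 34 ≤ X ∧ 48 ≤ XB)
    (hX' : XS u' r' = 4 * X' ∧ XBN u' r' = 4 * XB' ∧ 34 ≤ X' ∧ 48 ≤ XB')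
    (hk : farRow C1 D1 C2 D2 GH GV OH OV P Q S e (PV u r) (PR u r) (PI u r) (PC u r) X XB
      (PV u' r') (PR u' r') (PI u' r') (PC u' r') X' XB' ya n = true) {x y x' y' : ℤ}
    (c : Pair t t' x y x' y') (h1 : 4 * ya - 44 ≤ y) (h2 : y < 4 * (ya + n) - 44) :
    SpecN t t' e (HD.pk2 PV PR PI) (SD.pk (PV u r) (PR u r) (PI u r) (PC u r))
      (SD.pk (PV u' r') (PR u' r') (PI u' r') (PC u' r')) u r u' r' x y x' y' := by
  simp only [farRow, fz_e] at hk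
  obtain ⟨k1, k2⟩ := rec_false hk
  obtain ⟨i, j, i', j', ⟨rfl, rfl, rfl, rfl⟩, b1, b2, b3⟩ := Sx.pair h h' hS c
  intro F s F' s' N N' hc hr hm
  by_cases g : (F.inn = false ∧ F ≠ .B) ∧ F'.inn = false ∧ F' ≠ .B
  · obtain ⟨l, k1, a⟩ := sg1_ok h hx hX.1 hX.2.1 hX.2.2.1 k1
    obtain ⟨l', k1, a'⟩ := sg1_ok h' hx' hX'.1 hX'.2.1 hX'.2.2.1 k1
    obtain ⟨σ, m, v, a1, a2, a3, a4⟩ := a i j b1 F s N g.1
    obtain ⟨τ, m', v', e1, e2, e3, e4⟩ := a' i' j' b2 F' s' N' g.2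
    exact job_ok T h h' hS he c1 d1 k1 b1 b2 b3 (by omega) m m' a2 e2
      (lim_of a1 e1 a3 e3 hm a4 e4 hr)
  · have nE : ∀ {D : HD} {u r s R x y n}, ¬D.Nod u r s False R x y .E n := by
      rintro D u r s R x y n (a | a | a | ⟨_, _, a, _⟩)
      exacts [a.2.1, absurd a.1 (by decide), absurd a.1 (by decide), a]
    have f : F ≠ .E := fun e => nE (e ▸ N)
    have f' : F' ≠ .E := fun e => nE (e ▸ N')
    have iB : Fm.inn .B = false := rfl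
    have g : (F.inn = true ∨ F = .B) ∧ (F'.inn = true ∨ F' = .B) ∧
        ¬(F.inn = true ∧ F'.inn = true) := by
      obtain ⟨p, q⟩ := hc
      by_cases y : F = .B <;> by_cases y' : F' = .B <;> simp_all
    obtain ⟨l, k2, a⟩ := sg2_ok (t := t) (P := P) hX.2.1 hX.2.2.2 k2
    obtain ⟨l', k2, a'⟩ := sg2_ok (t := t') (P := Q) hX'.2.1 hX'.2.2.2 k2
    obtain ⟨σ, m, v, a1, a2, a3, a4⟩ := a i j b1 F s N g.1
    obtain ⟨τ, m', v', e1, e2, e3, e4⟩ := a' i' j' b2 F' s' N' g.2.1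
    exact job_ok T h h' hS he c2 d2 k2 b1 b2 b3 (by omega) m m' a2 e2
      (lim_of a1 e1 a3 e3 g.2.2 a4 e4 hr)

end Pool.Agent.Lib.VC2.TB.FX
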