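import Pool.Agent.Lib.VC2.DX4
import Pool.Agent.Lib.VC2.DQ5

/-! The direct rows, far states: the check of the rows of the table. -/

namespace Pool.Agent.Lib.VC2.TB.FX

open Pool.Agent.Lib.MP_759431_gt.FG (TZ DA)

open Pool.Agent.Lib.MP_759431_gt.AB Pool.Agent.Lib.MP_759431_gt.AB.DR

/-- the check of `n` rows of corners of the row `(l, k, r)` of the table -/
noncomputable def fxB (k l r a n : ℕ) : Bool :=
  (RW l k r).ev fun P Q S => fz (me r k) fun u => fz (me l k) fun u' =>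
    farRow XC264.get XD264.get XC64.get XD64.get dGH dGV dOH dOV P Q S k
    (PV u l) (PR u l) (PI u l) (PC u l) (XS u l / 4) (XBN u l / 4)
    (PV u' r) (PR u' r) (PI u' r) (PC u' r) (XS u' r / 4) (XBN u' r / 4) (Nat.add P.yl a) n

theorem xs_rng : ∀ u ≤ 10, ∀ v ≤ 10, XS u v = 4 * (XS u v / 4) ∧ XBN u v = 4 * (XBN u v / 4) ∧
    34 ≤ XS u v / 4 ∧ 48 ≤ XBN u v / 4 := by decide +kernel

/-- the rows of corners from `a` on -/
def FarA (k l r a : ℕ) : Prop := ∀ x y x' y', Pair (TZ DA l k r) (TZ DA r k l) x y x' y' →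
  4 * ((RW l k r).P.yl + a : ℕ) - 44 ≤ y →
  SpecN (TZ DA l k r) (TZ DA r k l) k DH (SH (me r k) l) (SH (me l k) r) (me r k) l (me l k) r
    x y x' y'

/-- admissible indices -/
def Ix (k l r : ℕ) : Prop := (k = 1 ∨ k = 2) ∧ 1 ≤ l ∧ l ≤ r ∧ r ≤ 10

instance (k l r : ℕ) : Decidable (Ix k l r) := by unfold Ix; infer_instance

variable {k l r a n : ℕ}

theorem FarA.step (c : fxB k l r a n = true) (g : Ix k l r → FarA k l r (a + n)) (h : Ix k l r) :
    FarA k l r a := fun x y x' y' z h1 => by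
  by_cases h2 : y < 4 * ((RW l k r).P.yl + (a + n) : ℕ) - 44
  swap
  · exact g h x y x' y' z (by omega)
  obtain ⟨hk, h0, h, hr⟩ := h
  have b := rw_ok hk h0 h hr
  rw [fxB, Rw.ev_eq, fz_e, fz_e] at c
  exact farRow_ok dtabs b.1 b.2.1 b.2.2.1 hk (Lit.eq _) (Lit.eq _) (Lit.eq _) (Lit.eq _)
    (tyOK _ (me_le _ _) l (by omega)).2.2 (tyOK _ (me_le _ _) r hr).2.2
    (xs_rng _ (me_le _ _) l (by omega)) (xs_rng _ (me_le _ _) r hr) c z h1
    (by simp only [Nat.add_eq]; omega)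

theorem FarA.last (c : (RW l k r).P.yh < (RW l k r).P.yl + a) (h : Ix k l r) : FarA k l r a :=
  fun x y x' y' z h1 => by
    obtain ⟨i, j, e⟩ := Bx.cor (rw_ok h.1 h.2.1 h.2.2.1 h.2.2.2).1 z.1
    omega

theorem FarA.far (h : Ix k l r) (g : Ix k l r → FarA k l r 0) : FarR l k r := fun x y x' y' z =>
  g h x y x' y' z (by
    obtain ⟨i, j, e⟩ := Bx.cor (rw_ok h.1 h.2.1 h.2.2.1 h.2.2.2).1 z.1
    omega)

end Pool.Agent.Lib.VC2.TB.FX
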