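import Pool.Agent.Lib.VC2.DX5

/-! The direct rows, far states: evaluation. -/

namespace Pool.Agent.Lib.VC2.TB.FX

theorem c_1_1_1_0 : fxB 1 1 1 0 2 = true := by decide +kernel

theorem c_1_1_1_2 : fxB 1 1 1 2 2 = true := by decide +kernel

theorem c_1_1_1_4 : fxB 1 1 1 4 2 = true := by decide +kernel

theorem r_1_1_1 : FarR 1 1 1 :=
  FarA.far (by decide) (FarA.step c_1_1_1_0 (FarA.step c_1_1_1_2 (FarA.step c_1_1_1_4 (FarA.last (by decide +kernel)))))

theorem c_1_1_2_0 : fxB 1 1 2 0 3 = true := by decide +kernel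

theorem c_1_1_2_3 : fxB 1 1 2 3 2 = true := by decide +kernel

theorem r_1_1_2 : FarR 1 1 2 :=
  FarA.far (by decide) (FarA.step c_1_1_2_0 (FarA.step c_1_1_2_3 (FarA.last (by decide +kernel))))

theorem c_1_1_3_0 : fxB 1 1 3 0 5 = true := by decide +kernel

theorem r_1_1_3 : FarR 1 1 3 :=
  FarA.far (by decide) (FarA.step c_1_1_3_0 (FarA.last (by decide +kernel)))

theorem c_1_1_4_0 : fxB 1 1 4 0 3 = true := by decide +kernel

theorem c_1_1_4_3 : fxB 1 1 4 3 2 = true := by decide +kernel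

theorem c_1_1_4_5 : fxB 1 1 4 5 1 = true := by decide +kernel

theorem r_1_1_4 : FarR 1 1 4 :=
  FarA.far (by decide) (FarA.step c_1_1_4_0 (FarA.step c_1_1_4_3 (FarA.step c_1_1_4_5 (FarA.last (by decide +kernel)))))

end Pool.Agent.Lib.VC2.TB.FX
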