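import Pool.Agent.Lib.VC2.DX5

/-! The direct rows, far states: evaluation. -/

namespace Pool.Agent.Lib.VC2.TB.FX

theorem c_2_1_5_0 : fxB 2 1 5 0 3 = true := by decide +kernel

theorem c_2_1_5_3 : fxB 2 1 5 3 2 = true := by decide +kernel

theorem r_2_1_5 : FarR 1 2 5 :=
  FarA.far (by decide) (FarA.step c_2_1_5_0 (FarA.step c_2_1_5_3 (FarA.last (by decide +kernel))))

theorem c_2_1_6_0 : fxB 2 1 6 0 5 = true := by decide +kernel

theorem r_2_1_6 : FarR 1 2 6 :=
  FarA.far (by decide) (FarA.step c_2_1_6_0 (FarA.last (by decide +kernel)))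

theorem c_2_1_7_0 : fxB 2 1 7 0 5 = true := by decide +kernel

theorem r_2_1_7 : FarR 1 2 7 :=
  FarA.far (by decide) (FarA.step c_2_1_7_0 (FarA.last (by decide +kernel)))

theorem c_2_1_8_0 : fxB 2 1 8 0 4 = true := by decide +kernel

theorem r_2_1_8 : FarR 1 2 8 :=
  FarA.far (by decide) (FarA.step c_2_1_8_0 (FarA.last (by decide +kernel)))

theorem c_2_1_9_0 : fxB 2 1 9 0 3 = true := by decide +kernel

theorem c_2_1_9_3 : fxB 2 1 9 3 2 = true := by decide +kernel

theorem r_2_1_9 : FarR 1 2 9 :=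
  FarA.far (by decide) (FarA.step c_2_1_9_0 (FarA.step c_2_1_9_3 (FarA.last (by decide +kernel))))

theorem c_2_1_10_0 : fxB 2 1 10 0 4 = true := by decide +kernel

theorem c_2_1_10_4 : fxB 2 1 10 4 1 = true := by decide +kernel

theorem r_2_1_10 : FarR 1 2 10 :=
  FarA.far (by decide) (FarA.step c_2_1_10_0 (FarA.step c_2_1_10_4 (FarA.last (by decide +kernel))))

end Pool.Agent.Lib.VC2.TB.FX
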