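import Pool.Agent.Lib.VC2.DX5

/-! The direct rows, far states: evaluation. -/

namespace Pool.Agent.Lib.VC2.TB.FX

theorem c_2_3_8_0 : fxB 2 3 8 0 2 = true := by decide +kernel

theorem r_2_3_8 : FarR 3 2 8 :=
  FarA.far (by decide) (FarA.step c_2_3_8_0 (FarA.last (by decide +kernel)))

theorem c_2_3_9_0 : fxB 2 3 9 0 2 = true := by decide +kernel

theorem r_2_3_9 : FarR 3 2 9 :=
  FarA.far (by decide) (FarA.step c_2_3_9_0 (FarA.last (by decide +kernel)))

theorem c_2_3_10_0 : fxB 2 3 10 0 2 = true := by decide +kernel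

theorem r_2_3_10 : FarR 3 2 10 :=
  FarA.far (by decide) (FarA.step c_2_3_10_0 (FarA.last (by decide +kernel)))

theorem c_2_4_4_0 : fxB 2 4 4 0 3 = true := by decide +kernel

theorem c_2_4_4_3 : fxB 2 4 4 3 2 = true := by decide +kernel

theorem r_2_4_4 : FarR 4 2 4 :=
  FarA.far (by decide) (FarA.step c_2_4_4_0 (FarA.step c_2_4_4_3 (FarA.last (by decide +kernel))))

theorem c_2_4_5_0 : fxB 2 4 5 0 4 = true := by decide +kernel

theorem c_2_4_5_4 : fxB 2 4 5 4 2 = true := by decide +kernel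

theorem r_2_4_5 : FarR 4 2 5 :=
  FarA.far (by decide) (FarA.step c_2_4_5_0 (FarA.step c_2_4_5_4 (FarA.last (by decide +kernel))))

theorem c_2_4_6_0 : fxB 2 4 6 0 5 = true := by decide +kernel

theorem r_2_4_6 : FarR 4 2 6 :=
  FarA.far (by decide) (FarA.step c_2_4_6_0 (FarA.last (by decide +kernel)))

theorem c_2_4_7_0 : fxB 2 4 7 0 5 = true := by decide +kernel

theorem r_2_4_7 : FarR 4 2 7 :=
  FarA.far (by decide) (FarA.step c_2_4_7_0 (FarA.last (by decide +kernel)))

theorem c_2_4_8_0 : fxB 2 4 8 0 4 = true := by decide +kernel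

theorem r_2_4_8 : FarR 4 2 8 :=
  FarA.far (by decide) (FarA.step c_2_4_8_0 (FarA.last (by decide +kernel)))

theorem c_2_4_9_0 : fxB 2 4 9 0 5 = true := by decide +kernel

theorem r_2_4_9 : FarR 4 2 9 :=
  FarA.far (by decide) (FarA.step c_2_4_9_0 (FarA.last (by decide +kernel)))

end Pool.Agent.Lib.VC2.TB.FX
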