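import Pool.Agent.Lib.VC2.DX5

/-! The direct rows, far states: evaluation. -/

namespace Pool.Agent.Lib.VC2.TB.FX

theorem c_2_4_10_0 : fxB 2 4 10 0 4 = true := by decide +kernel

theorem c_2_4_10_4 : fxB 2 4 10 4 1 = true := by decide +kernel

theorem r_2_4_10 : FarR 4 2 10 :=
  FarA.far (by decide) (FarA.step c_2_4_10_0 (FarA.step c_2_4_10_4 (FarA.last (by decide +kernel))))

theorem c_2_5_5_0 : fxB 2 5 5 0 3 = true := by decide +kernel

theorem c_2_5_5_3 : fxB 2 5 5 3 2 = true := by decide +kernel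

theorem r_2_5_5 : FarR 5 2 5 :=
  FarA.far (by decide) (FarA.step c_2_5_5_0 (FarA.step c_2_5_5_3 (FarA.last (by decide +kernel))))

theorem c_2_5_6_0 : fxB 2 5 6 0 4 = true := by decide +kernel

theorem r_2_5_6 : FarR 5 2 6 :=
  FarA.far (by decide) (FarA.step c_2_5_6_0 (FarA.last (by decide +kernel)))

theorem c_2_5_7_0 : fxB 2 5 7 0 4 = true := by decide +kernel

theorem r_2_5_7 : FarR 5 2 7 :=
  FarA.far (by decide) (FarA.step c_2_5_7_0 (FarA.last (by decide +kernel)))

theorem c_2_5_8_0 : fxB 2 5 8 0 5 = true := by decide +kernel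

theorem r_2_5_8 : FarR 5 2 8 :=
  FarA.far (by decide) (FarA.step c_2_5_8_0 (FarA.last (by decide +kernel)))

theorem c_2_5_9_0 : fxB 2 5 9 0 5 = true := by decide +kernel

theorem r_2_5_9 : FarR 5 2 9 :=
  FarA.far (by decide) (FarA.step c_2_5_9_0 (FarA.last (by decide +kernel)))

theorem c_2_5_10_0 : fxB 2 5 10 0 3 = true := by decide +kernel

theorem c_2_5_10_3 : fxB 2 5 10 3 2 = true := by decide +kernel

theorem r_2_5_10 : FarR 5 2 10 :=
  FarA.far (by decide) (FarA.step c_2_5_10_0 (FarA.step c_2_5_10_3 (FarA.last (by decide +kernel))))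

end Pool.Agent.Lib.VC2.TB.FX
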