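import Pool.Agent.Lib.VC2.DX5

/-! The direct rows, far states: evaluation. -/

namespace Pool.Agent.Lib.VC2.TB.FX

theorem c_2_6_6_0 : fxB 2 6 6 0 2 = true := by decide +kernel

theorem r_2_6_6 : FarR 6 2 6 :=
  FarA.far (by decide) (FarA.step c_2_6_6_0 (FarA.last (by decide +kernel)))

theorem c_2_6_7_0 : fxB 2 6 7 0 3 = true := by decide +kernel

theorem r_2_6_7 : FarR 6 2 7 :=
  FarA.far (by decide) (FarA.step c_2_6_7_0 (FarA.last (by decide +kernel)))

theorem c_2_6_8_0 : fxB 2 6 8 0 2 = true := by decide +kernel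

theorem r_2_6_8 : FarR 6 2 8 :=
  FarA.far (by decide) (FarA.step c_2_6_8_0 (FarA.last (by decide +kernel)))

theorem c_2_6_9_0 : fxB 2 6 9 0 3 = true := by decide +kernel

theorem r_2_6_9 : FarR 6 2 9 :=
  FarA.far (by decide) (FarA.step c_2_6_9_0 (FarA.last (by decide +kernel)))

theorem c_2_6_10_0 : fxB 2 6 10 0 3 = true := by decide +kernel

theorem r_2_6_10 : FarR 6 2 10 :=
  FarA.far (by decide) (FarA.step c_2_6_10_0 (FarA.last (by decide +kernel)))

theorem c_2_7_7_0 : fxB 2 7 7 0 4 = true := by decide +kernel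

theorem r_2_7_7 : FarR 7 2 7 :=
  FarA.far (by decide) (FarA.step c_2_7_7_0 (FarA.last (by decide +kernel)))

theorem c_2_7_8_0 : fxB 2 7 8 0 4 = true := by decide +kernel

theorem r_2_7_8 : FarR 7 2 8 :=
  FarA.far (by decide) (FarA.step c_2_7_8_0 (FarA.last (by decide +kernel)))

theorem c_2_7_9_0 : fxB 2 7 9 0 4 = true := by decide +kernel

theorem r_2_7_9 : FarR 7 2 9 :=
  FarA.far (by decide) (FarA.step c_2_7_9_0 (FarA.last (by decide +kernel)))

theorem c_2_7_10_0 : fxB 2 7 10 0 4 = true := by decide +kernel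

theorem r_2_7_10 : FarR 7 2 10 :=
  FarA.far (by decide) (FarA.step c_2_7_10_0 (FarA.last (by decide +kernel)))

theorem c_2_8_8_0 : fxB 2 8 8 0 2 = true := by decide +kernel

theorem r_2_8_8 : FarR 8 2 8 :=
  FarA.far (by decide) (FarA.step c_2_8_8_0 (FarA.last (by decide +kernel)))

theorem c_2_8_9_0 : fxB 2 8 9 0 2 = true := by decide +kernel

theorem r_2_8_9 : FarR 8 2 9 :=
  FarA.far (by decide) (FarA.step c_2_8_9_0 (FarA.last (by decide +kernel)))

theorem c_2_8_10_0 : fxB 2 8 10 0 3 = true := by decide +kernel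

theorem r_2_8_10 : FarR 8 2 10 :=
  FarA.far (by decide) (FarA.step c_2_8_10_0 (FarA.last (by decide +kernel)))

theorem c_2_9_9_0 : fxB 2 9 9 0 5 = true := by decide +kernel

theorem r_2_9_9 : FarR 9 2 9 :=
  FarA.far (by decide) (FarA.step c_2_9_9_0 (FarA.last (by decide +kernel)))

theorem c_2_9_10_0 : fxB 2 9 10 0 5 = true := by decide +kernel

theorem r_2_9_10 : FarR 9 2 10 :=
  FarA.far (by decide) (FarA.step c_2_9_10_0 (FarA.last (by decide +kernel)))

end Pool.Agent.Lib.VC2.TB.FX
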