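import Pool.Agent.Lib.VC2.DX5

/-! The direct rows, far states: evaluation. -/

namespace Pool.Agent.Lib.VC2.TB.FX

theorem c_2_10_10_0 : fxB 2 10 10 0 5 = true := by decide +kernel

theorem r_2_10_10 : FarR 10 2 10 :=
  FarA.far (by decide) (FarA.step c_2_10_10_0 (FarA.last (by decide +kernel)))

end Pool.Agent.Lib.VC2.TB.FX
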