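import Pool.Agent.Lib.VC2.DX5

/-! The direct rows, far states: evaluation. -/

namespace Pool.Agent.Lib.VC2.TB.FX

theorem c_1_1_8_0 : fxB 1 1 8 0 6 = true := by decide +kernel

theorem r_1_1_8 : FarR 1 1 8 :=
  FarA.far (by decide) (FarA.step c_1_1_8_0 (FarA.last (by decide +kernel)))

theorem c_1_1_9_0 : fxB 1 1 9 0 3 = true := by decide +kernel

theorem c_1_1_9_3 : fxB 1 1 9 3 3 = true := by decide +kernel

theorem c_1_1_9_6 : fxB 1 1 9 6 1 = true := by decide +kernel

theorem r_1_1_9 : FarR 1 1 9 :=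
  FarA.far (by decide) (FarA.step c_1_1_9_0 (FarA.step c_1_1_9_3 (FarA.step c_1_1_9_6 (FarA.last (by decide +kernel)))))

theorem c_1_1_10_0 : fxB 1 1 10 0 3 = true := by decide +kernel

theorem c_1_1_10_3 : fxB 1 1 10 3 2 = true := by decide +kernel

theorem c_1_1_10_5 : fxB 1 1 10 5 2 = true := by decide +kernel

theorem c_1_1_10_7 : fxB 1 1 10 7 1 = true := by decide +kernel

theorem r_1_1_10 : FarR 1 1 10 :=
  FarA.far (by decide) (FarA.step c_1_1_10_0 (FarA.step c_1_1_10_3 (FarA.step c_1_1_10_5 (FarA.step c_1_1_10_7 (FarA.last (by decide +kernel))))))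

end Pool.Agent.Lib.VC2.TB.FX
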