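import Pool.Agent.Lib.VC2.DX5

/-! The direct rows, far states: evaluation. -/

namespace Pool.Agent.Lib.VC2.TB.FX

theorem c_1_2_9_0 : fxB 1 2 9 0 5 = true := by decide +kernel

theorem r_1_2_9 : FarR 2 1 9 :=
  FarA.far (by decide) (FarA.step c_1_2_9_0 (FarA.last (by decide +kernel)))

theorem c_1_2_10_0 : fxB 1 2 10 0 4 = true := by decide +kernel

theorem c_1_2_10_4 : fxB 1 2 10 4 2 = true := by decide +kernel

theorem r_1_2_10 : FarR 2 1 10 :=
  FarA.far (by decide) (FarA.step c_1_2_10_0 (FarA.step c_1_2_10_4 (FarA.last (by decide +kernel))))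

theorem c_1_3_3_0 : fxB 1 3 3 0 2 = true := by decide +kernel

theorem r_1_3_3 : FarR 3 1 3 :=
  FarA.far (by decide) (FarA.step c_1_3_3_0 (FarA.last (by decide +kernel)))

theorem c_1_3_4_0 : fxB 1 3 4 0 3 = true := by decide +kernel

theorem r_1_3_4 : FarR 3 1 4 :=
  FarA.far (by decide) (FarA.step c_1_3_4_0 (FarA.last (by decide +kernel)))

theorem c_1_3_5_0 : fxB 1 3 5 0 4 = true := by decide +kernel

theorem r_1_3_5 : FarR 3 1 5 :=
  FarA.far (by decide) (FarA.step c_1_3_5_0 (FarA.last (by decide +kernel)))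

theorem c_1_3_6_0 : fxB 1 3 6 0 3 = true := by decide +kernel

theorem r_1_3_6 : FarR 3 1 6 :=
  FarA.far (by decide) (FarA.step c_1_3_6_0 (FarA.last (by decide +kernel)))

theorem c_1_3_7_0 : fxB 1 3 7 0 3 = true := by decide +kernel

theorem r_1_3_7 : FarR 3 1 7 :=
  FarA.far (by decide) (FarA.step c_1_3_7_0 (FarA.last (by decide +kernel)))

theorem c_1_3_8_0 : fxB 1 3 8 0 2 = true := by decide +kernel

theorem r_1_3_8 : FarR 3 1 8 :=
  FarA.far (by decide) (FarA.step c_1_3_8_0 (FarA.last (by decide +kernel)))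

theorem c_1_3_9_0 : fxB 1 3 9 0 4 = true := by decide +kernel

theorem r_1_3_9 : FarR 3 1 9 :=
  FarA.far (by decide) (FarA.step c_1_3_9_0 (FarA.last (by decide +kernel)))

theorem c_1_3_10_0 : fxB 1 3 10 0 4 = true := by decide +kernel

theorem r_1_3_10 : FarR 3 1 10 :=
  FarA.far (by decide) (FarA.step c_1_3_10_0 (FarA.last (by decide +kernel)))

theorem c_1_4_4_0 : fxB 1 4 4 0 3 = true := by decide +kernel

theorem c_1_4_4_3 : fxB 1 4 4 3 3 = true := by decide +kernel

theorem r_1_4_4 : FarR 4 1 4 :=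
  FarA.far (by decide) (FarA.step c_1_4_4_0 (FarA.step c_1_4_4_3 (FarA.last (by decide +kernel))))

end Pool.Agent.Lib.VC2.TB.FX
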