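import Pool.Agent.Lib.VC2.DX5

/-! The direct rows, far states: evaluation. -/

namespace Pool.Agent.Lib.VC2.TB.FX

theorem c_1_4_5_0 : fxB 1 4 5 0 2 = true := by decide +kernel

theorem c_1_4_5_2 : fxB 1 4 5 2 2 = true := by decide +kernel

theorem c_1_4_5_4 : fxB 1 4 5 4 2 = true := by decide +kernel

theorem c_1_4_5_6 : fxB 1 4 5 6 1 = true := by decide +kernel

theorem r_1_4_5 : FarR 4 1 5 :=
  FarA.far (by decide) (FarA.step c_1_4_5_0 (FarA.step c_1_4_5_2 (FarA.step c_1_4_5_4 (FarA.step c_1_4_5_6 (FarA.last (by decide +kernel))))))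

theorem c_1_4_6_0 : fxB 1 4 6 0 5 = true := by decide +kernel

theorem r_1_4_6 : FarR 4 1 6 :=
  FarA.far (by decide) (FarA.step c_1_4_6_0 (FarA.last (by decide +kernel)))

theorem c_1_4_7_0 : fxB 1 4 7 0 4 = true := by decide +kernel

theorem c_1_4_7_4 : fxB 1 4 7 4 2 = true := by decide +kernel

theorem r_1_4_7 : FarR 4 1 7 :=
  FarA.far (by decide) (FarA.step c_1_4_7_0 (FarA.step c_1_4_7_4 (FarA.last (by decide +kernel))))

theorem c_1_4_8_0 : fxB 1 4 8 0 6 = true := by decide +kernel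

theorem r_1_4_8 : FarR 4 1 8 :=
  FarA.far (by decide) (FarA.step c_1_4_8_0 (FarA.last (by decide +kernel)))

theorem c_1_4_9_0 : fxB 1 4 9 0 3 = true := by decide +kernel

theorem c_1_4_9_3 : fxB 1 4 9 3 2 = true := by decide +kernel

theorem c_1_4_9_5 : fxB 1 4 9 5 2 = true := by decide +kernel

theorem r_1_4_9 : FarR 4 1 9 :=
  FarA.far (by decide) (FarA.step c_1_4_9_0 (FarA.step c_1_4_9_3 (FarA.step c_1_4_9_5 (FarA.last (by decide +kernel)))))

end Pool.Agent.Lib.VC2.TB.FX
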