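import Pool.Agent.Lib.VC2.DX5

/-! The direct rows, far states: evaluation. -/

namespace Pool.Agent.Lib.VC2.TB.FX

theorem c_1_4_10_0 : fxB 1 4 10 0 4 = true := by decide +kernel

theorem c_1_4_10_4 : fxB 1 4 10 4 3 = true := by decide +kernel

theorem c_1_4_10_7 : fxB 1 4 10 7 1 = true := by decide +kernel

theorem r_1_4_10 : FarR 4 1 10 :=
  FarA.far (by decide) (FarA.step c_1_4_10_0 (FarA.step c_1_4_10_4 (FarA.step c_1_4_10_7 (FarA.last (by decide +kernel)))))

theorem c_1_5_5_0 : fxB 1 5 5 0 2 = true := by decide +kernel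

theorem c_1_5_5_2 : fxB 1 5 5 2 2 = true := by decide +kernel

theorem c_1_5_5_4 : fxB 1 5 5 4 2 = true := by decide +kernel

theorem r_1_5_5 : FarR 5 1 5 :=
  FarA.far (by decide) (FarA.step c_1_5_5_0 (FarA.step c_1_5_5_2 (FarA.step c_1_5_5_4 (FarA.last (by decide +kernel)))))

theorem c_1_5_6_0 : fxB 1 5 6 0 5 = true := by decide +kernel

theorem r_1_5_6 : FarR 5 1 6 :=
  FarA.far (by decide) (FarA.step c_1_5_6_0 (FarA.last (by decide +kernel)))

theorem c_1_5_7_0 : fxB 1 5 7 0 5 = true := by decide +kernel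

theorem c_1_5_7_5 : fxB 1 5 7 5 1 = true := by decide +kernel

theorem r_1_5_7 : FarR 5 1 7 :=
  FarA.far (by decide) (FarA.step c_1_5_7_0 (FarA.step c_1_5_7_5 (FarA.last (by decide +kernel))))

end Pool.Agent.Lib.VC2.TB.FX
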