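import Pool.Agent.Lib.VC2.DX5

/-! The direct rows, far states: evaluation. -/

namespace Pool.Agent.Lib.VC2.TB.FX

theorem c_1_5_8_0 : fxB 1 5 8 0 5 = true := by decide +kernel

theorem r_1_5_8 : FarR 5 1 8 :=
  FarA.far (by decide) (FarA.step c_1_5_8_0 (FarA.last (by decide +kernel)))

theorem c_1_5_9_0 : fxB 1 5 9 0 2 = true := by decide +kernel

theorem c_1_5_9_2 : fxB 1 5 9 2 2 = true := by decide +kernel

theorem c_1_5_9_4 : fxB 1 5 9 4 2 = true := by decide +kernel

theorem c_1_5_9_6 : fxB 1 5 9 6 1 = true := by decide +kernel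

theorem r_1_5_9 : FarR 5 1 9 :=
  FarA.far (by decide) (FarA.step c_1_5_9_0 (FarA.step c_1_5_9_2 (FarA.step c_1_5_9_4 (FarA.step c_1_5_9_6 (FarA.last (by decide +kernel))))))

theorem c_1_5_10_0 : fxB 1 5 10 0 2 = true := by decide +kernel

theorem c_1_5_10_2 : fxB 1 5 10 2 2 = true := by decide +kernel

theorem c_1_5_10_4 : fxB 1 5 10 4 2 = true := by decide +kernel

theorem c_1_5_10_6 : fxB 1 5 10 6 1 = true := by decide +kernel

theorem r_1_5_10 : FarR 5 1 10 :=
  FarA.far (by decide) (FarA.step c_1_5_10_0 (FarA.step c_1_5_10_2 (FarA.step c_1_5_10_4 (FarA.step c_1_5_10_6 (FarA.last (by decide +kernel))))))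

end Pool.Agent.Lib.VC2.TB.FX
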