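import Pool.Agent.Lib.VC2.DX5

/-! The direct rows, far states: evaluation. -/

namespace Pool.Agent.Lib.VC2.TB.FX

theorem c_1_6_6_0 : fxB 1 6 6 0 3 = true := by decide +kernel

theorem r_1_6_6 : FarR 6 1 6 :=
  FarA.far (by decide) (FarA.step c_1_6_6_0 (FarA.last (by decide +kernel)))

theorem c_1_6_7_0 : fxB 1 6 7 0 2 = true := by decide +kernel

theorem r_1_6_7 : FarR 6 1 7 :=
  FarA.far (by decide) (FarA.step c_1_6_7_0 (FarA.last (by decide +kernel)))

theorem c_1_6_8_0 : fxB 1 6 8 0 2 = true := by decide +kernel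

theorem r_1_6_8 : FarR 6 1 8 :=
  FarA.far (by decide) (FarA.step c_1_6_8_0 (FarA.last (by decide +kernel)))

theorem c_1_6_9_0 : fxB 1 6 9 0 3 = true := by decide +kernel

theorem r_1_6_9 : FarR 6 1 9 :=
  FarA.far (by decide) (FarA.step c_1_6_9_0 (FarA.last (by decide +kernel)))

theorem c_1_6_10_0 : fxB 1 6 10 0 4 = true := by decide +kernel

theorem r_1_6_10 : FarR 6 1 10 :=
  FarA.far (by decide) (FarA.step c_1_6_10_0 (FarA.last (by decide +kernel)))

theorem c_1_7_7_0 : fxB 1 7 7 0 4 = true := by decide +kernel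

theorem r_1_7_7 : FarR 7 1 7 :=
  FarA.far (by decide) (FarA.step c_1_7_7_0 (FarA.last (by decide +kernel)))

theorem c_1_7_8_0 : fxB 1 7 8 0 3 = true := by decide +kernel

theorem r_1_7_8 : FarR 7 1 8 :=
  FarA.far (by decide) (FarA.step c_1_7_8_0 (FarA.last (by decide +kernel)))

theorem c_1_7_9_0 : fxB 1 7 9 0 4 = true := by decide +kernel

theorem c_1_7_9_4 : fxB 1 7 9 4 1 = true := by decide +kernel

theorem r_1_7_9 : FarR 7 1 9 :=
  FarA.far (by decide) (FarA.step c_1_7_9_0 (FarA.step c_1_7_9_4 (FarA.last (by decide +kernel))))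

theorem c_1_7_10_0 : fxB 1 7 10 0 3 = true := by decide +kernel

theorem c_1_7_10_3 : fxB 1 7 10 3 3 = true := by decide +kernel

theorem r_1_7_10 : FarR 7 1 10 :=
  FarA.far (by decide) (FarA.step c_1_7_10_0 (FarA.step c_1_7_10_3 (FarA.last (by decide +kernel))))

theorem c_1_8_8_0 : fxB 1 8 8 0 2 = true := by decide +kernel

theorem r_1_8_8 : FarR 8 1 8 :=
  FarA.far (by decide) (FarA.step c_1_8_8_0 (FarA.last (by decide +kernel)))

end Pool.Agent.Lib.VC2.TB.FX
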