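import Pool.Agent.Lib.VC2.DX5

/-! The direct rows, far states: evaluation. -/

namespace Pool.Agent.Lib.VC2.TB.FX

theorem c_1_8_9_0 : fxB 1 8 9 0 3 = true := by decide +kernel

theorem r_1_8_9 : FarR 8 1 9 :=
  FarA.far (by decide) (FarA.step c_1_8_9_0 (FarA.last (by decide +kernel)))

theorem c_1_8_10_0 : fxB 1 8 10 0 4 = true := by decide +kernel

theorem r_1_8_10 : FarR 8 1 10 :=
  FarA.far (by decide) (FarA.step c_1_8_10_0 (FarA.last (by decide +kernel)))

theorem c_1_9_9_0 : fxB 1 9 9 0 2 = true := by decide +kernel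

theorem c_1_9_9_2 : fxB 1 9 9 2 2 = true := by decide +kernel

theorem c_1_9_9_4 : fxB 1 9 9 4 3 = true := by decide +kernel

theorem r_1_9_9 : FarR 9 1 9 :=
  FarA.far (by decide) (FarA.step c_1_9_9_0 (FarA.step c_1_9_9_2 (FarA.step c_1_9_9_4 (FarA.last (by decide +kernel)))))

theorem c_1_9_10_0 : fxB 1 9 10 0 3 = true := by decide +kernel

theorem c_1_9_10_3 : fxB 1 9 10 3 2 = true := by decide +kernel

theorem c_1_9_10_5 : fxB 1 9 10 5 2 = true := by decide +kernel

theorem r_1_9_10 : FarR 9 1 10 :=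
  FarA.far (by decide) (FarA.step c_1_9_10_0 (FarA.step c_1_9_10_3 (FarA.step c_1_9_10_5 (FarA.last (by decide +kernel)))))

end Pool.Agent.Lib.VC2.TB.FX
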