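import Pool.Agent.Lib.VC2.DX6_0
import Pool.Agent.Lib.VC2.DX6_1
import Pool.Agent.Lib.VC2.DX6_2
import Pool.Agent.Lib.VC2.DX6_3
import Pool.Agent.Lib.VC2.DX6_4
import Pool.Agent.Lib.VC2.DX6_5
import Pool.Agent.Lib.VC2.DX6_6
import Pool.Agent.Lib.VC2.DX6_7
import Pool.Agent.Lib.VC2.DX6_8
import Pool.Agent.Lib.VC2.DX6_9
import Pool.Agent.Lib.VC2.DX6_10
import Pool.Agent.Lib.VC2.DX6_11
import Pool.Agent.Lib.VC2.DX6_12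
import Pool.Agent.Lib.VC2.DX6_13
import Pool.Agent.Lib.VC2.DX6_14
import Pool.Agent.Lib.VC2.DX6_15
import Pool.Agent.Lib.VC2.DX6_16

/-! The direct rows, far states: all rows. -/

namespace Pool.Agent.Lib.VC2.TB.FX

theorem far_all (l k r : ℕ) (hk : k = 1 ∨ k = 2) (h1 : 1 ≤ l) (h : l ≤ r) (hr : r ≤ 10) :
    FarR l k r := by
  have := h.trans hr
  rcases hk with rfl | rfl <;> interval_cases l <;> interval_cases r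
  exacts [r_1_1_1, r_1_1_2, r_1_1_3, r_1_1_4, r_1_1_5, r_1_1_6, r_1_1_7, r_1_1_8, r_1_1_9,
    r_1_1_10, r_1_2_2, r_1_2_3, r_1_2_4, r_1_2_5, r_1_2_6, r_1_2_7, r_1_2_8, r_1_2_9,
    r_1_2_10, r_1_3_3, r_1_3_4, r_1_3_5, r_1_3_6, r_1_3_7, r_1_3_8, r_1_3_9, r_1_3_10,
    r_1_4_4, r_1_4_5, r_1_4_6, r_1_4_7, r_1_4_8, r_1_4_9, r_1_4_10, r_1_5_5, r_1_5_6,
    r_1_5_7, r_1_5_8, r_1_5_9, r_1_5_10, r_1_6_6, r_1_6_7, r_1_6_8, r_1_6_9, r_1_6_10,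
    r_1_7_7, r_1_7_8, r_1_7_9, r_1_7_10, r_1_8_8, r_1_8_9, r_1_8_10, r_1_9_9, r_1_9_10,
    r_1_10_10, r_2_1_1, r_2_1_2, r_2_1_3, r_2_1_4, r_2_1_5, r_2_1_6, r_2_1_7, r_2_1_8,
    r_2_1_9, r_2_1_10, r_2_2_2, r_2_2_3, r_2_2_4, r_2_2_5, r_2_2_6, r_2_2_7, r_2_2_8,
    r_2_2_9, r_2_2_10, r_2_3_3, r_2_3_4, r_2_3_5, r_2_3_6, r_2_3_7, r_2_3_8, r_2_3_9,
    r_2_3_10, r_2_4_4, r_2_4_5, r_2_4_6, r_2_4_7, r_2_4_8, r_2_4_9, r_2_4_10, r_2_5_5,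
    r_2_5_6, r_2_5_7, r_2_5_8, r_2_5_9, r_2_5_10, r_2_6_6, r_2_6_7, r_2_6_8, r_2_6_9,
    r_2_6_10, r_2_7_7, r_2_7_8, r_2_7_9, r_2_7_10, r_2_8_8, r_2_8_9, r_2_8_10, r_2_9_9,
    r_2_9_10, r_2_10_10]

end Pool.Agent.Lib.VC2.TB.FX
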