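import Pool.Agent.Lib.VC2.DX7
import Pool.Agent.Lib.VC2.DE7
import Pool.Agent.Lib.VC2.DR6

/-! The direct rows. -/

namespace Pool.Agent.Lib.VC2.TB.FX

open Pool.Agent.Lib.MP_759431_gt.FG (TZ DA)

open Pool.Agent.Lib.MP_759431_gt.AB

theorem dir_all {l k r : ℕ} (R : Row l k r) (hk : k ≤ 2) (h : l ≤ r) : DH.RowOK (TZ DA) l k r :=
  dir_all_of st_dirE cen_all far_all R hk h

end Pool.Agent.Lib.VC2.TB.FX
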