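import Pool.Agent.Lib.VC2.LTc1
import Pool.Agent.Lib.VC2.LTc2
import Pool.Agent.Lib.VC2.LTc3
import Pool.Agent.Lib.VC2.LTc4
import Pool.Agent.Lib.VC2.LTc5
import Pool.Agent.Lib.VC2.LTc6
import Pool.Agent.Lib.VC2.LTc7
import Pool.Agent.Lib.VC2.LTc8
import Pool.Agent.Lib.VC2.LTf1
import Pool.Agent.Lib.VC2.LTf2
import Pool.Agent.Lib.VC2.LTf3
import Pool.Agent.Lib.VC2.LTf4
import Pool.Agent.Lib.VC2.LTf5
import Pool.Agent.Lib.VC2.LTf6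
import Pool.Agent.Lib.VC2.LTp1
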