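import Pool.Agent.Lib.VC2.TB3

/-! Constants for the grid of mesh `π / 128`. -/

namespace Pool.Agent.Lib.VC2.TB

open Complex Pool.Agent.Lib.MP_759431_gt

def sT128 : ℕ := 0x751d5646f160a6691630663217b85d3b97f576829151aac694c06fab46803fd4119fe83bd78b336bc24531caf022d06faf287335324127171fe762e1bf49bc183c8b414c17ca11859570e8ad440bd30f7095ff420733051054d99d03b0dd9025dcf101553f40097d160025fa300000010025fa30097d1601553f4025dcf103b0dd9054d99d0733051095ff420bd30f70e8ad44118595714c17ca183c8b41bf49bc1fe762e241271728733532d06faf31caf0236bc2453bd78b34119fe846803fd4c06fab51aac6957682915d3b97f63217b869163066f160a6751d5647b285c48133623873aae18d3a881932f3cf99152089ee88f6a4a5f1eaa49bdcafd078ab536b9fba792d4bf94942c485c85c949bd8cddd834d23e470d669559da5c1cbde142d3e18f3bde4cb230e7c5e43ea7da90ecf0c45ef1db36f1031eaf29fdaef3f2e96f4fb793f5b8e71f62abe4f650b87f62abe4f5b8e71f4fb793f3f2e96f29fdaef1031eaef1db36ecf0c45ea7da90e7c5e43e4cb230e18f3bdde142d3da5c1cbd669559d23e470cddd834c949bd8c485c85bf94942ba792d4b536b9fafd078aaa49bdca4a5f1e9ee88f69915208932f3cf8d3a881873aae181336237b285c4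

theorem sin128 : SinOK (4 * 32) 129140163 sT128 := sinOK_of (by decide +kernel)

theorem rho128 : RhoOK (4 * 32) 21780946667829 21780946667830 22876792454961 :=
  rhoOK_of (by norm_num) (by norm_num) (by decide +kernel) (by decide +kernel)

theorem eps128 : EpsOK 4096 22865624872827 22865624872828 22876792454961 :=
  epsOK_of (by norm_num) (by norm_num) (by decide +kernel) (by decide +kernel)

end Pool.Agent.Lib.VC2.TB
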