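import Pool.Agent.Lib.VC2.TB33
import Pool.Agent.Lib.VC2.TB30

/-! Blocks of the table families. -/

namespace Pool.Agent.Lib.VC2.TB

/-- columns step `-h` in `I`, rows step `±h` in `J` -/
def layH (h S R oI oJ : ℕ) (dec : Bool) : Lay :=
  ⟨S, R, oI, oJ, 64, cond dec (64 - h) (64 + h), 64 - h, 64⟩

/-- columns step `+h` in `I`, rows step `±h` in `J` -/
def layH' (h S R oI oJ : ℕ) (dec : Bool) : Lay :=
  ⟨S, R, oI, oJ, 64, cond dec (64 - h) (64 + h), 64 + h, 64⟩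

/-- columns step `-h` in `J`, rows step `±h` in `I` -/
def layV (h S R oI oJ : ℕ) (dec : Bool) : Lay :=
  ⟨S, R, oI, oJ, cond dec (64 - h) (64 + h), 64, 64, 64 - h⟩

/-- the window of the tables -/
def Win (X Y : ℤ) : Prop := -1024 ≤ X ∧ X ≤ 256 ∧ -180 ≤ Y ∧ Y ≤ 180

variable {val : ℕ → ℕ → ℕ} {L : Lay} {B T : ℕ}

theorem TabL.getZ (h : TabL val L B T) {r d : ℕ} {X Y : ℤ} (hr : r < L.R) (hd : d < L.S)
    (hX : X + 1024 + 64 * (r + d) = L.oI + r * L.uI + d * L.vI)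
    (hY : Y + 1024 + 64 * (r + d) = L.oJ + r * L.uJ + d * L.vJ) (w : Win X Y) :
    (val (nz X) (nz Y) : ℝ) ≤ lane 32 T (L.S * r + d) := by
  obtain ⟨w1, w2, w3, w4⟩ := w
  have a : (nz X : ℤ) = X + 1024 := by unfold nz; omega
  have b : (nz Y : ℤ) = Y + 1024 := by unfold nz; omega
  refine Nat.cast_le.2 (h.get r hr d hd _ _ (by zify; rw [a, hX]) (by zify; rw [b, hY]) (by omega) ?_)
  simp only [ad, Nat.add_eq, Nat.sub_eq]; omega

theorem TabL.getH {h S R oI oJ : ℕ} {dec : Bool} (t : TabL val (layH h S R oI oJ dec) B T)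
    (h0 : h ≤ 64) {r d : ℕ} {X Y : ℤ} (hr : r < R) (hd : d < S) (hX : X + 1024 + h * d = oI)
    (hY : Y + 1024 = oJ + cond dec (-h : ℤ) h * r) (w : Win X Y) :
    (val (nz X) (nz Y) : ℝ) ≤ lane 32 T (S * r + d) := by
  refine t.getZ hr hd ?_ ?_ w
  · simp only [layH, Nat.cast_sub h0]; push_cast; linear_combination hX
  · cases dec <;> simp only [layH, cond_true, cond_false, Nat.cast_sub h0] at hY ⊢ <;> push_cast <;>
      linear_combination hY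

theorem TabL.getH' {h S R oI oJ : ℕ} {dec : Bool} (t : TabL val (layH' h S R oI oJ dec) B T)
    (h0 : h ≤ 64) {r d : ℕ} {X Y : ℤ} (hr : r < R) (hd : d < S) (hX : X + 1024 = oI + h * d)
    (hY : Y + 1024 = oJ + cond dec (-h : ℤ) h * r) (w : Win X Y) :
    (val (nz X) (nz Y) : ℝ) ≤ lane 32 T (S * r + d) := by
  refine t.getZ hr hd ?_ ?_ w
  · simp only [layH']; push_cast; linear_combination hX
  · cases dec <;> simp only [layH', cond_true, cond_false, Nat.cast_sub h0] at hY ⊢ <;>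
      push_cast <;> linear_combination hY

theorem TabL.getV {h S R oI oJ : ℕ} {dec : Bool} (t : TabL val (layV h S R oI oJ dec) B T)
    (h0 : h ≤ 64) {r d : ℕ} {X Y : ℤ} (hr : r < R) (hd : d < S)
    (hX : X + 1024 = oI + cond dec (-h : ℤ) h * r) (hY : Y + 1024 + h * d = oJ) (w : Win X Y) :
    (val (nz X) (nz Y) : ℝ) ≤ lane 32 T (S * r + d) := by
  refine t.getZ hr hd ?_ ?_ w
  · cases dec <;> simp only [layV, cond_true, cond_false, Nat.cast_sub h0] at hX ⊢ <;> push_cast <;>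
      linear_combination hX
  · simp only [layV, Nat.cast_sub h0]; push_cast; linear_combination hY

/-- a block of lanes read with rows of `W` lanes -/
theorem TabL.blk (t : TabL val L B T) (hB : B < 2 ^ 32) {S W m k r c : ℕ} {F : ℕ → ℕ → ℝ}
    (hs : S * r + c + W * m ≤ L.S * L.R) (hF : ∀ y < m, ∀ x < k, ∃ d,
      c + W * y + x = S * y + d ∧ F y x ≤ lane 32 T (S * (r + y) + d)) :
    MU W m k (TB.slice 32 T (Nat.add (Nat.mul S r) c) (W * m)) B F := by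
  refine ⟨_, t.slice hB hs, fun y hy x hx => ?_⟩
  obtain ⟨d, a, b⟩ := hF y hy x hx
  rwa [Nat.add_eq, Nat.mul_eq, show S * r + c + (W * y + x) = S * (r + y) + d by
    rw [mul_add]; omega]

/-- a Hankel block from a short vector; `sg` chooses `x - y` instead of `x + y` -/
def hk (W m v : ℕ) (sg : Bool) : ℕ :=
  hank (cond sg (Nat.succ W) (Nat.pred W)) W m (cond sg (Nat.pred m) 0) v

theorem UB.hk {W m k n v : ℕ} {sg : Bool} {f : ℕ → ℝ} (h : UB 32 n v B f) (hB : B < 2 ^ 32)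
    (h0 : 0 < k) (hW : 1 < W) (hn : m + k ≤ n + 1) (hP : n + 1 ≤ cond sg (W + 1) W) :
    MU W m k (hk W m v sg) B fun y x => f (cond sg (m - 1 + x - y) (x + y)) := by
  cases sg
  · simp only [cond_false] at hP
    obtain ⟨G, a, b⟩ := (h.pad (m := W - 1) (by omega)).hank (W := W) (m := m) (c := 0) (a := 1)
      (a' := 0) (k := k) hB (by omega) (by omega) (by omega) (by omega) h0
    refine ⟨G, a, fun y hy x hx => ?_⟩
    rw [b y hy x hx, if_pos (by omega), show 0 + 1 * y + x - 0 * y = x + y by omega]; rfl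
  · simp only [cond_true] at hP
    obtain ⟨G, a, b⟩ := (h.pad (m := W + 1) (by omega)).hank (W := W) (m := m) (c := m - 1) (a := 0)
      (a' := 1) (k := k) hB (by omega) (by omega) (by omega) (by omega) h0
    refine ⟨G, a, fun y hy x hx => ?_⟩
    rw [b y hy x hx, if_pos (by omega), show m - 1 + 0 * y + x - 1 * y = m - 1 + x - y by omega]; rfl

/-! ### coarse tables, `H` family -/

/-- index of the residue class -/
def rho (di dj : ℕ) : ℕ :=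
  Nat.add (Nat.mod (Nat.div di 2) 2) (Nat.mul 2 (Nat.mod (Nat.div dj 2) 2))

theorem rho_eq (di dj : ℕ) : rho di dj = di / 2 % 2 + 2 * (dj / 2 % 2) := rfl

def TF (val : ℕ → ℕ → ℕ) (S : ℕ) (dec : Bool) (T : ℕ → ℕ) : Prop :=
  ∀ ρ < 4, TabL val (layH 4 S 94 (1280 - 2 * (ρ % 2))
    (cond dec (1204 - 2 * (ρ / 2)) (844 + 2 * (ρ / 2))) dec) 33554432 (T ρ)

/-- distance from the first row -/
def dJ (dec : Bool) (j : ℕ) : ℕ := cond dec (Nat.sub 1204 j) (Nat.sub j 844)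

def gb (T : ℕ → ℕ) (S : ℕ) (dec : Bool) (m i j : ℕ) : ℕ :=
  slice 32 (T (rho (Nat.sub 1280 i) (dJ dec j)))
    (Nat.add (Nat.mul S (Nat.div (dJ dec j) 4)) (Nat.div (Nat.sub 1280 i) 4)) (132 * m)

def gbOK (S : ℕ) (dec : Bool) (m k i j : ℕ) : Prop :=
  i % 2 = 0 ∧ j % 2 = 0 ∧ i ≤ 1280 ∧
    cond dec (j ≤ 1204 ∧ 844 + 4 * m ≤ j + 4) (844 ≤ j ∧ j ≤ 1204 ∧ j + 4 * m ≤ 1208) ∧
    (S = 131 ∧ (1280 - i) / 4 + k + m ≤ 132 ∨ S = 132 ∧ (1280 - i) / 4 + k ≤ 132 ∨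
      S = 133 ∧ i + 4 * m ≤ 1284 ∧ (1280 - i) / 4 + k ≤ 133)

instance (S : ℕ) (dec : Bool) (m k i j : ℕ) : Decidable (gbOK S dec m k i j) := by
  unfold gbOK; cases dec <;> simp only [cond_true, cond_false] <;> infer_instance

theorem gbOK.mono {S m k m' k' i₁ j₁ i₂ j₂ i j : ℕ} {dec : Bool} (h : gbOK S dec m k i₁ j₁)
    (h' : gbOK S dec m k i₂ j₂) (a : i₁ ≤ i) (b : i ≤ i₂) (c : j₁ ≤ j) (d : j ≤ j₂) (e : i % 2 = 0)
    (f : j % 2 = 0) (hm : m' ≤ m) (hk : k' ≤ k) : gbOK S dec m' k' i j := by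
  cases dec <;> simp only [gbOK, cond_true, cond_false] at * <;> omega

theorem gbOK.win {S m k i j : ℕ} {dec : Bool} (h : gbOK S dec m k i j) {X Y ux uy : ℤ}
    (hX : (i : ℤ) = X + 1024) (hY : (j : ℤ) = Y + 1024) (hx : ux = 4 * ((S : ℤ) - 132))
    (hy : uy = cond dec (-4) 4) {y x : ℕ} (a : y < m) (b : x < k) :
    Win (X - 4 * x + ux * y) (Y + uy * y) := by
  subst hx hy
  cases dec <;> simp only [gbOK, cond_true, cond_false] at h ⊢ <;>
    obtain ⟨h1, h2, h3, h4, ⟨rfl, h5⟩ | ⟨rfl, h5⟩ | ⟨rfl, h5⟩⟩ := h <;>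
    simp only [Win] <;> push_cast <;> omega

theorem TF.gb {S m k i j : ℕ} {dec : Bool} {T : ℕ → ℕ} (t : TF val S dec T)
    (h : gbOK S dec m k i j) {X Y ux uy : ℤ} (hX : (i : ℤ) = X + 1024) (hY : (j : ℤ) = Y + 1024)
    (hx : ux = 4 * ((S : ℤ) - 132)) (hy : uy = cond dec (-4) 4) :
    MU 132 m k (gb T S dec m i j) 33554432
      fun y x => val (nz (X - 4 * x + ux * y)) (nz (Y + uy * y)) := by
  have w := fun y a x b => h.win hX hY hx hy (y := y) (x := x) a b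
  have t := t (rho (1280 - i) (dJ dec j)) (by rw [rho_eq]; omega)
  subst hx hy
  refine t.blk (by norm_num) ?_ fun y a x b =>
    ⟨(1280 - i) / 4 + 132 * y + x - S * y, ?_, t.getH (by norm_num) ?_ ?_ ?_ ?_ (w y a x b)⟩
  all_goals
    cases dec <;> simp only [gbOK, layH, dJ, rho_eq, cond_true, cond_false, Nat.sub_eq,
      show ∀ a, Nat.div a 4 = a / 4 from fun _ => rfl] at h ⊢ <;>
      obtain ⟨h1, h2, h3, h4, ⟨rfl, h5⟩ | ⟨rfl, h5⟩ | ⟨rfl, h5⟩⟩ := h <;> push_cast <;> omega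

/-- `n` lanes of the row of `(i, j)`, starting `s` columns before `i` -/
def gw (T : ℕ → ℕ) (S : ℕ) (dec : Bool) (n s i j : ℕ) : ℕ :=
  slice 32 (T (rho (Nat.sub 1280 i) (dJ dec j)))
    (Nat.add (Nat.mul S (Nat.div (dJ dec j) 4)) (Nat.sub (Nat.div (Nat.sub 1280 i) 4) s)) n

def gwOK (S n s i j : ℕ) : Prop :=
  i % 2 = 0 ∧ j % 2 = 0 ∧ 844 ≤ j ∧ j ≤ 1204 ∧ i + 4 * s ≤ 1280 ∧ (1280 - i) / 4 + n ≤ S + s ∧
    S ≤ 256

instance (S n s i j : ℕ) : Decidable (gwOK S n s i j) := by unfold gwOK; infer_instance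

theorem TF.gw {S n s i j : ℕ} {dec : Bool} {T : ℕ → ℕ} (t : TF val S dec T) (h : gwOK S n s i j)
    {X Y : ℤ} (hX : (i : ℤ) = X + 1024) (hY : (j : ℤ) = Y + 1024) :
    UB 32 n (gw T S dec n s i j) 33554432 fun q => val (nz (X + 4 * s - 4 * q)) (nz Y) := by
  have t := t (rho (1280 - i) (dJ dec j)) (by rw [rho_eq]; omega)
  obtain ⟨h1, h2, h3, h4, h5, h6, h7⟩ := h
  have r : dJ dec j / 4 ≤ 90 := by cases dec <;> simp only [dJ, cond, Nat.sub_eq] <;> omega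
  refine (t.slice (by norm_num) ?_).mono le_rfl fun q hq => ?_
  · have := Nat.mul_le_mul_left S r
    change S * (dJ dec j / 4) + ((1280 - i) / 4 - s) + n ≤ S * 94
    omega
  · change _ ≤ (lane 32 _ (S * (dJ dec j / 4) + ((1280 - i) / 4 - s) + q) : ℝ)
    rw [add_assoc]
    refine t.getH (by norm_num) (by omega) (by omega) ?_ ?_ ?_
    all_goals
      cases dec <;> simp only [Win, dJ, rho_eq, cond_true, cond_false, Nat.sub_eq] <;> push_cast <;>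
        omega

/-- Hankel block from a row; `sg = true` gives `X - 4 x + 4 y`, else `X - 4 x - 4 y` -/
def gh (T : ℕ → ℕ) (S : ℕ) (dec : Bool) (m k i j : ℕ) (sg : Bool) : ℕ :=
  hk 132 m (gw T S dec (Nat.pred (Nat.add m k)) (cond sg (Nat.pred m) 0) i j) sg

def ghOK (S m k i j : ℕ) (sg : Bool) : Prop :=
  0 < k ∧ m + k ≤ cond sg 133 132 ∧ gwOK S (m + k - 1) (cond sg (m - 1) 0) i j

instance (S m k i j : ℕ) (sg : Bool) : Decidable (ghOK S m k i j sg) := by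
  unfold ghOK; infer_instance

theorem ghOK.mono {S m k i₁ j₁ i₂ j₂ i j : ℕ} {sg : Bool} (h : ghOK S m k i₁ j₁ sg)
    (h' : ghOK S m k i₂ j₂ sg) (a : i₁ ≤ i) (b : i ≤ i₂) (c : j₁ ≤ j) (d : j ≤ j₂) (e : i % 2 = 0)
    (f : j % 2 = 0) : ghOK S m k i j sg := by
  cases sg <;> simp only [ghOK, gwOK, cond_true, cond_false] at * <;> omega

theorem ghOK.win {S m k i j : ℕ} {sg : Bool} (h : ghOK S m k i j sg) {X Y ux : ℤ}
    (hX : (i : ℤ) = X + 1024) (hY : (j : ℤ) = Y + 1024) (hx : ux = cond sg 4 (-4)) {y x : ℕ}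
    (a : y < m) (b : x < k) : Win (X - 4 * x + ux * y) Y := by
  subst hx
  cases sg <;> simp only [ghOK, gwOK, Win, cond_true, cond_false] at h ⊢ <;> omega

theorem TF.gh {S m k i j : ℕ} {dec sg : Bool} {T : ℕ → ℕ} (t : TF val S dec T)
    (h : ghOK S m k i j sg) {X Y ux : ℤ} (hX : (i : ℤ) = X + 1024) (hY : (j : ℤ) = Y + 1024)
    (hx : ux = cond sg 4 (-4)) :
    MU 132 m k (gh T S dec m k i j sg) 33554432
      fun y x => val (nz (X - 4 * x + ux * y)) (nz Y) := by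
  obtain ⟨h0, h1, h2⟩ := h
  refine ((t.gw h2 hX hY).hk (by norm_num) h0 (by norm_num) (by omega)
    (by cases sg <;> simp only [cond] at h1 ⊢ <;> omega)).mono le_rfl le_rfl
    fun y a x b => le_of_eq ?_
  subst hx
  congr 3
  cases sg <;> simp only [cond_true, cond_false] <;> omega

/-! ### coarse tables, `V` family -/

def TV (val : ℕ → ℕ → ℕ) (S : ℕ) (dec : Bool) (T : ℕ → ℕ) : Prop :=
  ∀ ρ < 4, TabL val (layV 4 S 136 (cond dec (1280 - 2 * (ρ % 2)) (768 + 2 * (ρ % 2)))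
    (1204 - 2 * (ρ / 2)) dec) 33554432 (T ρ)

/-- distance from the first row -/
def dI (dec : Bool) (i : ℕ) : ℕ := cond dec (Nat.sub 1280 i) (Nat.sub i 768)

def gv (T : ℕ → ℕ) (S : ℕ) (dec : Bool) (m i j : ℕ) : ℕ :=
  slice 32 (T (rho (dI dec i) (Nat.sub 1204 j)))
    (Nat.add (Nat.mul S (Nat.div (dI dec i) 4)) (Nat.div (Nat.sub 1204 j) 4)) (132 * m)

def gvOK (S : ℕ) (dec : Bool) (m k i j : ℕ) : Prop :=
  i % 2 = 0 ∧ j % 2 = 0 ∧ i ≤ 1280 ∧ 844 ≤ j ∧ j ≤ 1204 ∧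
    cond dec ((1280 - i) / 4 + m ≤ 133) (768 ≤ i ∧ i + 4 * m ≤ 1284) ∧
    (S = 131 ∧ 844 + 4 * k + 4 * m ≤ j + 8 ∨ S = 132 ∧ 844 + 4 * k ≤ j + 4 ∨
      S = 133 ∧ j + 4 * m ≤ 1208 ∧ 844 + 4 * k ≤ j + 4)

instance (S : ℕ) (dec : Bool) (m k i j : ℕ) : Decidable (gvOK S dec m k i j) := by
  unfold gvOK; cases dec <;> simp only [cond_true, cond_false] <;> infer_instance

theorem gvOK.mono {S m k m' k' i₁ j₁ i₂ j₂ i j : ℕ} {dec : Bool} (h : gvOK S dec m k i₁ j₁)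
    (h' : gvOK S dec m k i₂ j₂) (a : i₁ ≤ i) (b : i ≤ i₂) (c : j₁ ≤ j) (d : j ≤ j₂) (e : i % 2 = 0)
    (f : j % 2 = 0) (hm : m' ≤ m) (hk : k' ≤ k) : gvOK S dec m' k' i j := by
  cases dec <;> simp only [gvOK, cond_true, cond_false] at * <;> omega

theorem gvOK.win {S m k i j : ℕ} {dec : Bool} (h : gvOK S dec m k i j) {X Y ux uy : ℤ}
    (hX : (i : ℤ) = X + 1024) (hY : (j : ℤ) = Y + 1024) (hx : ux = cond dec (-4) 4)
    (hy : uy = 4 * ((S : ℤ) - 132)) {y x : ℕ} (a : y < m) (b : x < k) :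
    Win (X + ux * y) (Y - 4 * x + uy * y) := by
  subst hx hy
  cases dec <;> simp only [gvOK, cond_true, cond_false] at h ⊢ <;>
    obtain ⟨h1, h2, h3, h4, h6, h7, ⟨rfl, h5⟩ | ⟨rfl, h5⟩ | ⟨rfl, h5⟩⟩ := h <;>
    simp only [Win] <;> push_cast <;> omega

theorem TV.gv {S m k i j : ℕ} {dec : Bool} {T : ℕ → ℕ} (t : TV val S dec T)
    (h : gvOK S dec m k i j) {X Y ux uy : ℤ} (hX : (i : ℤ) = X + 1024) (hY : (j : ℤ) = Y + 1024)
    (hx : ux = cond dec (-4) 4) (hy : uy = 4 * ((S : ℤ) - 132)) :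
    MU 132 m k (gv T S dec m i j) 33554432
      fun y x => val (nz (X + ux * y)) (nz (Y - 4 * x + uy * y)) := by
  have w := fun y a x b => h.win hX hY hx hy (y := y) (x := x) a b
  have t := t (rho (dI dec i) (1204 - j)) (by rw [rho_eq]; omega)
  subst hx hy
  refine t.blk (by norm_num) ?_ fun y a x b =>
    ⟨(1204 - j) / 4 + 132 * y + x - S * y, ?_, t.getV (by norm_num) ?_ ?_ ?_ ?_ (w y a x b)⟩
  all_goals
    cases dec <;> simp only [gvOK, layV, dI, rho_eq, cond_true, cond_false, Nat.sub_eq,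
      show ∀ a, Nat.div a 4 = a / 4 from fun _ => rfl] at h ⊢ <;>
      obtain ⟨h1, h2, h3, h4, h6, h7, ⟨rfl, h5⟩ | ⟨rfl, h5⟩ | ⟨rfl, h5⟩⟩ := h <;> push_cast <;> omega

/-! ### fine tables -/

/-- distance from the first row -/
def dR (dec : Bool) (oJ j : ℕ) : ℕ := cond dec (Nat.sub oJ j) (Nat.sub j oJ)

def g1 (T S oI oJ : ℕ) (dec : Bool) (W m i j : ℕ) : ℕ :=
  slice 32 T (Nat.add (Nat.mul S (dR dec oJ j)) (Nat.sub oI i)) (W * m)

def g1OK (S R oI oJ : ℕ) (dec : Bool) (W m k i j : ℕ) : Prop :=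
  0 < k ∧ i ≤ oI ∧ i ≤ 1280 ∧
    cond dec (j ≤ oJ ∧ j ≤ 1204 ∧ 844 + m ≤ j + 1 ∧ oJ + m < R + j)
      (oJ ≤ j ∧ 844 ≤ j ∧ j + m ≤ 1205 ∧ j + m < R + oJ) ∧
    (W = S + 1 ∧ oI + k + m ≤ S + 1 + i ∧ k + m ≤ i + 2 ∨ W = S ∧ oI + k ≤ S + i ∧ k ≤ i + 1 ∨
      S = W + 1 ∧ i + m ≤ oI + 1 ∧ i + m ≤ 1281 ∧ oI + k ≤ S + i ∧ k ≤ i + 1)

instance (S R oI oJ : ℕ) (dec : Bool) (W m k i j : ℕ) :
    Decidable (g1OK S R oI oJ dec W m k i j) := by
  unfold g1OK; cases dec <;> simp only [cond_true, cond_false] <;> infer_instance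

theorem g1OK.mono {S R oI oJ W m k m' k' i₁ j₁ i₂ j₂ i j : ℕ} {dec : Bool}
    (h : g1OK S R oI oJ dec W m k i₁ j₁) (h' : g1OK S R oI oJ dec W m k i₂ j₂) (a : i₁ ≤ i)
    (b : i ≤ i₂) (c : j₁ ≤ j) (d : j ≤ j₂) (hm : m' ≤ m) (hk : k' ≤ k) (h0 : 0 < k') :
    g1OK S R oI oJ dec W m' k' i j := by
  cases dec <;> simp only [g1OK, cond_true, cond_false] at * <;> omega

theorem g1OK.win {S R oI oJ W m k i j : ℕ} {dec : Bool} (h : g1OK S R oI oJ dec W m k i j)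
    {X Y ux uy : ℤ} (hX : (i : ℤ) = X + 1024) (hY : (j : ℤ) = Y + 1024) (hx : ux = (S : ℤ) - W)
    (hy : uy = cond dec (-1) 1) {y x : ℕ} (a : y < m) (b : x < k) :
    Win (X - x + ux * y) (Y + uy * y) := by
  subst hx hy
  cases dec <;> simp only [g1OK, cond_true, cond_false] at h ⊢ <;>
    obtain ⟨h1, h2, h3, h4, ⟨rfl, h5⟩ | ⟨rfl, h5⟩ | ⟨rfl, h5⟩⟩ := h <;>
    simp only [Win] <;> push_cast <;> ring_nf <;> omega

theorem TabL.g1 {S R oI oJ W m k i j : ℕ} {dec : Bool} (t : TabL val (layH 1 S R oI oJ dec) B T)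
    (hB : B < 2 ^ 32) (h : g1OK S R oI oJ dec W m k i j) {X Y ux uy : ℤ} (hX : (i : ℤ) = X + 1024)
    (hY : (j : ℤ) = Y + 1024) (hx : ux = (S : ℤ) - W) (hy : uy = cond dec (-1) 1) :
    MU W m k (g1 T S oI oJ dec W m i j) B
      fun y x => val (nz (X - x + ux * y)) (nz (Y + uy * y)) := by
  have w := fun y a x b => h.win hX hY hx hy (y := y) (x := x) a b
  obtain ⟨h1, h2, h3, h4, h5⟩ := h
  have r : dR dec oJ j + m + 1 ≤ R ∧ ∀ y : ℕ, Y + uy * y + 1024 =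
      oJ + cond dec (-(1 : ℕ) : ℤ) (1 : ℕ) * (dR dec oJ j + y : ℕ) := by
    subst hy
    cases dec <;> simp only [dR, cond_true, cond_false, Nat.sub_eq] at h4 ⊢ <;>
      exact ⟨by omega, fun y => by omega⟩
  have s := Nat.mul_le_mul_left S r.1
  subst hx
  refine t.blk hB ?_ fun y a x b =>
    ⟨oI - i + W * y + x - S * y, ?_, t.getH (by norm_num) (by omega) ?_ ?_ (r.2 y) (w y a x b)⟩
  all_goals
    try simp only [layH, Nat.sub_eq]
    obtain ⟨rfl, h5⟩ | ⟨rfl, h5⟩ | ⟨rfl, h5⟩ := h5 <;> push_cast <;> ring_nf at s ⊢ <;> omega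

/-- `n` lanes of the row of `(i, j)`, starting `s` columns before `i` -/
def r1 (T S oI oJ : ℕ) (dec : Bool) (n s i j : ℕ) : ℕ :=
  slice 32 T (Nat.add (Nat.mul S (dR dec oJ j)) (Nat.sub (Nat.sub oI i) s)) n

def r1OK (S R oI oJ : ℕ) (dec : Bool) (n s i j : ℕ) : Prop :=
  844 ≤ j ∧ j ≤ 1204 ∧ cond dec (j ≤ oJ ∧ oJ < R + j) (oJ ≤ j ∧ j < R + oJ) ∧
    i + s ≤ oI ∧ i + s ≤ 1280 ∧ oI + n ≤ S + s + i ∧ n ≤ i + s + 1

instance (S R oI oJ : ℕ) (dec : Bool) (n s i j : ℕ) : Decidable (r1OK S R oI oJ dec n s i j) := by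
  unfold r1OK; cases dec <;> simp only [cond_true, cond_false] <;> infer_instance

theorem dR_ok {R oJ j : ℕ} {dec : Bool} {Y : ℤ} (hY : (j : ℤ) = Y + 1024)
    (h : cond dec (j ≤ oJ ∧ oJ < R + j) (oJ ≤ j ∧ j < R + oJ)) :
    dR dec oJ j + 1 ≤ R ∧ Y + 1024 = oJ + cond dec (-(1 : ℕ) : ℤ) (1 : ℕ) * dR dec oJ j := by
  cases dec <;> simp only [dR, cond_true, cond_false, Nat.sub_eq] at h ⊢ <;> omega

theorem TabL.r1 {S R oI oJ n s i j : ℕ} {dec : Bool} (t : TabL val (layH 1 S R oI oJ dec) B T)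
    (hB : B < 2 ^ 32) (h : r1OK S R oI oJ dec n s i j) {X Y : ℤ} (hX : (i : ℤ) = X + 1024)
    (hY : (j : ℤ) = Y + 1024) :
    UB 32 n (r1 T S oI oJ dec n s i j) B fun q => val (nz (X + s - q)) (nz Y) := by
  obtain ⟨h1, h2, h3, h4, h5, h6, h7⟩ := h
  obtain ⟨r, e⟩ := dR_ok hY h3
  refine (t.slice hB ?_).mono le_rfl fun q hq => ?_
  · have := Nat.mul_le_mul_left S r
    change S * dR dec oJ j + (oI - i - s) + n ≤ S * R
    rw [mul_add] at this; omega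
  · change _ ≤ (lane 32 _ (S * dR dec oJ j + (oI - i - s) + q) : ℝ)
    rw [add_assoc]
    exact t.getH (by norm_num) r (by omega) (by omega) e (by simp only [Win]; omega)

/-- `n` lanes of the row of `(i, j)` of a table with increasing columns -/
def r1' (T S oI oJ : ℕ) (dec : Bool) (n i j : ℕ) : ℕ :=
  slice 32 T (Nat.add (Nat.mul S (dR dec oJ j)) (Nat.sub i oI)) n

def r1OK' (S R oI oJ : ℕ) (dec : Bool) (n i j : ℕ) : Prop :=
  844 ≤ j ∧ j ≤ 1204 ∧ cond dec (j ≤ oJ ∧ oJ < R + j) (oJ ≤ j ∧ j < R + oJ) ∧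
    oI ≤ i ∧ i + n ≤ 1281 ∧ i + n ≤ S + oI

instance (S R oI oJ : ℕ) (dec : Bool) (n i j : ℕ) : Decidable (r1OK' S R oI oJ dec n i j) := by
  unfold r1OK'; cases dec <;> simp only [cond_true, cond_false] <;> infer_instance

theorem TabL.r1' {S R oI oJ n i j : ℕ} {dec : Bool} (t : TabL val (layH' 1 S R oI oJ dec) B T)
    (hB : B < 2 ^ 32) (h : r1OK' S R oI oJ dec n i j) {X Y : ℤ} (hX : (i : ℤ) = X + 1024)
    (hY : (j : ℤ) = Y + 1024) :
    UB 32 n (r1' T S oI oJ dec n i j) B fun q => val (nz (X + q)) (nz Y) := by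
  obtain ⟨h1, h2, h3, h4, h5, h6⟩ := h
  obtain ⟨r, e⟩ := dR_ok hY h3
  refine (t.slice hB ?_).mono le_rfl fun q hq => ?_
  · have := Nat.mul_le_mul_left S r
    change S * dR dec oJ j + (i - oI) + n ≤ S * R
    rw [mul_add] at this; omega
  · change _ ≤ (lane 32 _ (S * dR dec oJ j + (i - oI) + q) : ℝ)
    rw [add_assoc]
    exact t.getH' (by norm_num) r (by omega) (by omega) e (by simp only [Win]; omega)

/-- Hankel block of width `W` from a row; `sg = true` gives `X - x + y`, else `X - x - y` -/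
def gh1 (T S oI oJ : ℕ) (dec : Bool) (W m k i j : ℕ) (sg : Bool) : ℕ :=
  hk W m (r1 T S oI oJ dec (Nat.pred (Nat.add m k)) (cond sg (Nat.pred m) 0) i j) sg

def gh1OK (S R oI oJ : ℕ) (dec : Bool) (W m k i j : ℕ) (sg : Bool) : Prop :=
  0 < k ∧ 1 < W ∧ m + k ≤ cond sg (W + 1) W ∧
    r1OK S R oI oJ dec (m + k - 1) (cond sg (m - 1) 0) i j

instance (S R oI oJ : ℕ) (dec : Bool) (W m k i j : ℕ) (sg : Bool) :
    Decidable (gh1OK S R oI oJ dec W m k i j sg) := by unfold gh1OK; infer_instance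

theorem gh1OK.mono {S R oI oJ W m k i₁ j₁ i₂ j₂ i j : ℕ} {dec sg : Bool}
    (h : gh1OK S R oI oJ dec W m k i₁ j₁ sg) (h' : gh1OK S R oI oJ dec W m k i₂ j₂ sg) (a : i₁ ≤ i)
    (b : i ≤ i₂) (c : j₁ ≤ j) (d : j ≤ j₂) : gh1OK S R oI oJ dec W m k i j sg := by
  cases dec <;> cases sg <;> simp only [gh1OK, r1OK, cond_true, cond_false] at * <;> omega

theorem gh1OK.win {S R oI oJ W m k i j : ℕ} {dec sg : Bool} (h : gh1OK S R oI oJ dec W m k i j sg)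
    {X Y ux : ℤ} (hX : (i : ℤ) = X + 1024) (hY : (j : ℤ) = Y + 1024) (hx : ux = cond sg 1 (-1))
    {y x : ℕ} (a : y < m) (b : x < k) : Win (X - x + ux * y) Y := by
  subst hx
  obtain ⟨-, -, -, h1, h2, -, h⟩ := h
  cases sg <;> simp only [Win, cond_true, cond_false] at h ⊢ <;> omega

theorem TabL.gh1 {S R oI oJ W m k i j : ℕ} {dec sg : Bool}
    (t : TabL val (layH 1 S R oI oJ dec) B T) (hB : B < 2 ^ 32)
    (h : gh1OK S R oI oJ dec W m k i j sg) {X Y ux : ℤ} (hX : (i : ℤ) = X + 1024)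
    (hY : (j : ℤ) = Y + 1024) (hx : ux = cond sg 1 (-1)) :
    MU W m k (gh1 T S oI oJ dec W m k i j sg) B fun y x => val (nz (X - x + ux * y)) (nz Y) := by
  obtain ⟨h0, hW, h1, h2⟩ := h
  refine ((t.r1 hB h2 hX hY).hk hB h0 hW (by omega)
    (by cases sg <;> simp only [cond] at h1 ⊢ <;> omega)).mono le_rfl le_rfl
    fun y a x b => le_of_eq ?_
  subst hx
  congr 3
  cases sg <;> simp only [cond_true, cond_false] <;> omega

end Pool.Agent.Lib.VC2.TB
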