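import Pool.Agent.Lib.VC2.TB5
import Pool.Agent.Lib.VC2.TB128c

/-! Constants for tables in the unit `(π / 128) ^ 2 / 256`. -/

namespace Pool.Agent.Lib.VC2.TB

open Complex Pool.Agent.Lib.MP_759431_gt

theorem epsU128 : EpsR (2 * (256 : ℕ) * (4 * 32 : ℕ) / Real.pi) 847207380558 847207380559 847288609443 :=
  epsR_of (by norm_num) (by norm_num) (by decide +kernel) (by decide +kernel)

theorem scGU128 : ScOK (4194304 / Real.pi ^ 2) 1481785202924415 3486784401 :=
  scOK_div_pi_sq (a := 4194304) (by norm_num) (by decide +kernel) (by decide +kernel) (by norm_num)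

theorem scLU128 : ScOK (2 * (256 : ℕ) * (4 * 32 : ℕ) / Real.pi) 72736961057896 3486784401 :=
  scOK_div_pi (a := 65536) (by norm_num) (by decide +kernel) (by decide +kernel) (by norm_num)

end Pool.Agent.Lib.VC2.TB
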